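import Pool.Agent.Helper21.BP.Kernel

/-!
Periodic groups with a finite maximal subgroup that is abelian and core free: first facts.
-/

namespace Pool.Agent.Helper21.BP

open Subgroup

/-- A torsion group with a finite abelian core free maximal subgroup. -/
structure Frob {G : Type*} [Group G] (M : Subgroup G) : Prop where
  tors : IsMulTorsion G
  fin : Finite M
  max : IsCoatom M
  comm : ∀ a ∈ M, ∀ b ∈ M, a * b = b * a
  core : M.normalCore = ⊥

variable {G : Type*} [Group G] {M : Subgroup G}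

theorem Frob.cen (h : Frob M) {y : G} (hy : y ∈ M) (hy1 : y ≠ 1) {g : G}
    (hg : g * y = y * g) : g ∈ M := by
  have hle : M ≤ centralizer {y} := by
    intro m hm
    rw [mem_centralizer_iff]
    intro u hu
    rw [Set.mem_singleton_iff] at hu
    rw [hu]
    exact h.comm y hy m hm
  rcases (h.max.le_iff).1 hle with h1 | h1
  · exfalso
    have hcomm : ∀ g : G, y * g = g * y := by
      intro g
      have : g ∈ centralizer {y} := by rw [h1]; exact mem_top g
      rw [mem_centralizer_iff] at this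
      exact this y rfl
    have hn : (zpowers y).Normal := by
      constructor
      intro n hn g
      obtain ⟨k, rfl⟩ := mem_zpowers_iff.1 hn
      have hc : Commute g (y ^ k) := (show Commute g y from (hcomm g).symm).zpow_right k
      have : g * y ^ k * g⁻¹ = y ^ k := by
        rw [hc.eq, mul_inv_cancel_right]
      rw [this]
      exact hn
    have h2 : zpowers y ≤ M.normalCore := by
      apply normal_le_normalCore.2
      rw [zpowers_le]
      exact hy
    rw [h.core, le_bot_iff, zpowers_eq_bot] at h2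
    exact hy1 h2
  · rw [← h1, mem_centralizer_iff]
    intro u hu
    rw [Set.mem_singleton_iff] at hu
    rw [hu]
    exact hg.symm

theorem Frob.ti (h : Frob M) {y : G} (hy : y ∈ M) (hy1 : y ≠ 1) {x : G}
    (hx : x * y * x⁻¹ ∈ M) : x ∈ M := by
  have hxy1 : x * y * x⁻¹ ≠ 1 := by
    intro h1
    apply hy1
    have := congrArg (fun t => x⁻¹ * t * x) h1
    simpa [mul_assoc] using this
  have h1 : x ∈ normalizer (M : Set G) := by
    rw [mem_normalizer_iff]
    intro m
    constructor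
    · intro hm
      apply h.cen hx hxy1
      have := h.comm m hm y hy
      calc x * m * x⁻¹ * (x * y * x⁻¹) = x * (m * y) * x⁻¹ := by group
        _ = x * (y * m) * x⁻¹ := by rw [this]
        _ = x * y * x⁻¹ * (x * m * x⁻¹) := by group
    · intro hm
      apply h.cen hy hy1
      have := h.comm _ hm _ hx
      calc m * y = x⁻¹ * (x * m * x⁻¹ * (x * y * x⁻¹)) * x := by group
        _ = x⁻¹ * (x * y * x⁻¹ * (x * m * x⁻¹)) * x := by rw [this]
        _ = y * m := by group
  rcases (h.max.le_iff).1 (le_normalizer (H := M)) with h2 | h2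
  · exfalso
    have hn : M.Normal := normalizer_eq_top_iff.1 h2
    have h3 : M ≤ M.normalCore := normal_le_normalCore.2 le_rfl
    rw [h.core, le_bot_iff] at h3
    apply hy1
    rw [h3] at hy
    exact mem_bot.1 hy
  · rw [← h2]
    exact h1

/-- The normal complement inside a finite subgroup generated by two conjugates. -/
theorem Frob.kernel (h : Frob M) {p : ℕ} (hp : p.Prime) {a : G} (ha : a ∈ M)
    (hpa : orderOf a = p) (x : G) (hfin : Finite (closure ({a, x * a * x⁻¹} : Set G))) :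
    ∃ N : Subgroup G, Finite N ∧ (∀ n ∈ N, a * n * a⁻¹ ∈ N) ∧
      (∀ n ∈ N, (x * a * x⁻¹) * n * (x * a * x⁻¹)⁻¹ ∈ N) ∧
      x * a * x⁻¹ * a⁻¹ ∈ N ∧ ∀ n ∈ N, n ∈ M → n = 1 := by
  haveI : Fact p.Prime := ⟨hp⟩
  set S : Set G := {a, x * a * x⁻¹} with hS
  set K : Subgroup G := closure S with hK
  haveI : Finite K := hfin
  have ha1 : a ≠ 1 := by
    intro h
    rw [h, orderOf_one] at hpa
    exact hp.one_lt.ne hpa
  have haK : a ∈ K := subset_closure (by simp [hS])
  have hbK : x * a * x⁻¹ ∈ K := subset_closure (by simp [hS])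
  set a' : K := ⟨a, haK⟩ with ha'
  set b' : K := ⟨x * a * x⁻¹, hbK⟩ with hb'
  have hpa' : orderOf a' = p := by
    rw [ha', Subgroup.orderOf_mk, hpa]
  have hpb' : orderOf b' = p := by
    rw [hb', Subgroup.orderOf_mk]
    have : x * a * x⁻¹ = MulAut.conj x a := by simp
    rw [this, MulEquiv.orderOf_eq, hpa]
  have hpg : ∀ y : K, orderOf y = p → IsPGroup p (zpowers y) := by
    intro y hy
    apply IsPGroup.of_card (n := 1)
    rw [Nat.card_zpowers, hy, pow_one]
  obtain ⟨P, hP⟩ := (hpg a' hpa').exists_le_sylow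
  obtain ⟨Q, hQ⟩ := (hpg b' hpb').exists_le_sylow
  have haP : a' ∈ (P : Subgroup K) := hP (mem_zpowers a')
  have hbQ : b' ∈ (Q : Subgroup K) := hQ (mem_zpowers b')
  -- the malnormal subgroups
  set H : Subgroup K := M.subgroupOf K with hH
  have hab : ∀ u ∈ H, ∀ v ∈ H, u * v = v * u := by
    intro u hu v hv
    apply Subtype.ext
    exact h.comm _ (mem_subgroupOf.1 hu) _ (mem_subgroupOf.1 hv)
  have hti : ∀ y ∈ H, y ≠ 1 → ∀ z, z * y * z⁻¹ ∈ H → z ∈ H := by
    intro y hy hy1 z hz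
    rw [hH, mem_subgroupOf] at hy hz ⊢
    apply h.ti hy (fun h1 => hy1 (Subtype.ext h1))
    simpa using hz
  have haH : a' ∈ H := by rw [hH, mem_subgroupOf]; exact ha
  have ha1' : a' ≠ 1 := fun h1 => ha1 (congrArg Subtype.val h1)
  set H2 : Subgroup K := (M.map (MulAut.conj x).toMonoidHom).subgroupOf K with hH2
  have hmem2 : ∀ u : K, u ∈ H2 ↔ x⁻¹ * (u : G) * x ∈ M := by
    intro u
    rw [hH2, mem_subgroupOf, mem_map]
    constructor
    · rintro ⟨m, hm, hmu⟩
      have : x * m * x⁻¹ = (u : G) := by simpa using hmu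
      rw [← this]
      have : x⁻¹ * (x * m * x⁻¹) * x = m := by group
      rw [this]
      exact hm
    · intro hu
      refine ⟨_, hu, ?_⟩
      simp [mul_assoc]
  have hab2 : ∀ u ∈ H2, ∀ v ∈ H2, u * v = v * u := by
    intro u hu v hv
    rw [hmem2] at hu hv
    apply Subtype.ext
    have := h.comm _ hu _ hv
    have h3 : x * (x⁻¹ * (u : G) * x * (x⁻¹ * (v : G) * x)) * x⁻¹ =
        x * (x⁻¹ * (v : G) * x * (x⁻¹ * (u : G) * x)) * x⁻¹ := by rw [this]
    simpa [mul_assoc] using h3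
  have hti2 : ∀ y ∈ H2, y ≠ 1 → ∀ z, z * y * z⁻¹ ∈ H2 → z ∈ H2 := by
    intro y hy hy1 z hz
    rw [hmem2] at hy hz ⊢
    apply h.ti hy
    · intro h1
      apply hy1
      apply Subtype.ext
      have := congrArg (fun t => x * t * x⁻¹) h1
      simpa [mul_assoc] using this
    · have : x⁻¹ * (z : G) * x * (x⁻¹ * (y : G) * x) * (x⁻¹ * (z : G) * x)⁻¹ =
          x⁻¹ * ((z * y * z⁻¹ : K) : G) * x := by
        push_cast
        group
      rw [this]
      exact hz
  have hbH2 : b' ∈ H2 := by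
    rw [hmem2]
    have : x⁻¹ * ((b' : K) : G) * x = a := by
      rw [hb']
      group
    rw [this]
    exact ha
  have hb1 : b' ≠ 1 := by
    intro h1
    rw [h1, orderOf_one] at hpb'
    exact hp.one_lt.ne hpb'
  have hPH := (sylow_data H hab hti a' haH ha1' P haP).1
  have hQH := (sylow_data H2 hab2 hti2 b' hbH2 hb1 Q hbQ).1
  -- conjugacy
  have hconj : IsConj a' b' := by
    obtain ⟨k, hk⟩ := MulAction.exists_smul_eq K P Q
    have h1 : k * a' * k⁻¹ ∈ (Q : Subgroup K) := by
      rw [← hk, Sylow.smul_def, Sylow.pointwise_smul_def]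
      have := Subgroup.smul_mem_pointwise_smul a' (MulAut.conj k) (P : Subgroup K) haP
      simpa using this
    have h2 := (hmem2 _).1 (hQH h1)
    have h3 : x⁻¹ * (k : G) ∈ M := by
      apply h.ti ha ha1
      have : x⁻¹ * (k : G) * a * (x⁻¹ * (k : G))⁻¹ = x⁻¹ * ((k * a' * k⁻¹ : K) : G) * x := by
        push_cast
        rw [ha']
        group
      rw [this]
      exact h2
    rw [isConj_iff]
    refine ⟨k, Subtype.ext ?_⟩
    push_cast
    rw [ha', hb']
    have h4 := h.comm _ h3 _ ha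
    calc (k : G) * a * (k : G)⁻¹ = x * (x⁻¹ * (k : G) * a) * (x⁻¹ * (k : G))⁻¹ * x⁻¹ := by group
      _ = x * (a * (x⁻¹ * (k : G))) * (x⁻¹ * (k : G))⁻¹ * x⁻¹ := by rw [h4]
      _ = x * a * x⁻¹ := by group
  have hgen : closure {a', b'} = (⊤ : Subgroup K) := by
    have := closure_closure_coe_preimage (k := S)
    rw [← this]
    congr 1
    ext u
    simp only [Set.mem_insert_iff, Set.mem_singleton_iff, Set.mem_preimage, hS, ha', hb']
    constructor
    · rintro (h1 | h1)
      · left; rw [h1]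
      · right; rw [h1]
    · rintro (h1 | h1)
      · left; exact Subtype.ext h1
      · right; exact Subtype.ext h1
  obtain ⟨N, hNn, hNb, hNH⟩ := exists_kernel H hab hti hp a' b' haH hpa' hconj hgen
  refine ⟨N.map K.subtype, ?_, ?_, ?_, ?_, ?_⟩
  · exact (Set.Finite.image _ (Set.toFinite (N : Set K))).to_subtype
  · rintro _ ⟨n, hn, rfl⟩
    exact ⟨a' * n * a'⁻¹, hNn.conj_mem n hn a', by simp [ha']⟩
  · rintro _ ⟨n, hn, rfl⟩
    exact ⟨b' * n * b'⁻¹, hNn.conj_mem n hn b', by simp [hb']⟩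
  · exact ⟨b' * a'⁻¹, hNb, by simp [ha', hb']⟩
  · rintro _ ⟨n, hn, rfl⟩ hnM
    have : n = 1 := hNH n hn (by rw [hH, mem_subgroupOf]; exact hnM)
    rw [this]
    simp

/-- A finite subgroup `N` meeting `M` trivially and normalised by `a ∈ M`, `a ≠ 1`: every element
of `N a` is conjugate to `a` under `N`. -/
theorem Frob.conj_surj (h : Frob M) {a : G} (ha : a ∈ M) (ha1 : a ≠ 1) (N : Subgroup G)
    (hfin : Finite N) (hn : ∀ n ∈ N, a * n * a⁻¹ ∈ N) (hNM : ∀ n ∈ N, n ∈ M → n = 1) :
    ∀ n ∈ N, ∃ m ∈ N, m⁻¹ * a * m * a⁻¹ = n := by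
  have hinj : Function.Injective (fun m : N => (⟨(m : G)⁻¹ * (a * (m : G) * a⁻¹),
      N.mul_mem (N.inv_mem m.2) (hn _ m.2)⟩ : N)) := by
    intro m1 m2 h12
    have h12' : (m1 : G)⁻¹ * (a * (m1 : G) * a⁻¹) = (m2 : G)⁻¹ * (a * (m2 : G) * a⁻¹) :=
      congrArg Subtype.val h12
    have h3 : (m2 : G) * (m1 : G)⁻¹ ∈ M := by
      apply h.cen ha ha1
      have h4 : (m2 : G) * ((m1 : G)⁻¹ * (a * (m1 : G) * a⁻¹)) * a * (m1 : G)⁻¹ =
          (m2 : G) * ((m2 : G)⁻¹ * (a * (m2 : G) * a⁻¹)) * a * (m1 : G)⁻¹ := by rw [h12']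
      simpa [mul_assoc] using h4
    have h5 := hNM _ (N.mul_mem m2.2 (N.inv_mem m1.2)) h3
    apply Subtype.ext
    exact (mul_inv_eq_one.1 h5).symm
  have hsurj := Finite.surjective_of_injective hinj
  intro n hnn
  obtain ⟨m, hm⟩ := hsurj ⟨n, hnn⟩
  refine ⟨m, m.2, ?_⟩
  have := congrArg Subtype.val hm
  simpa [mul_assoc] using this

end Pool.Agent.Helper21.BP
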