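import Mathlib

/-!
A finite abelian group whose elements of equal prime order generate the same subgroup is cyclic.
-/

set_option linter.style.haveILetI false

namespace Pool.Agent.Helper21.BP

open Subgroup

theorem cyc_of_prime {A : Type*} [CommGroup A] [Finite A]
    (h : ∀ p : ℕ, p.Prime → ∀ a b : A, orderOf a = p → orderOf b = p → a ∈ zpowers b) :
    IsCyclic A := by
  classical
  haveI : Fintype A := Fintype.ofFinite A
  have hp : ∀ p : ℕ, p.Prime → (Finset.univ.filter (fun a : A => a ^ p = 1)).card ≤ p := by
    intro p hp
    by_cases hex : ∃ b : A, orderOf b = p
    · obtain ⟨b, hb⟩ := hex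
      have hsub : (Finset.univ.filter (fun a : A => a ^ p = 1)) ⊆
          (Finset.range p).image (fun i => b ^ i) := by
        intro a ha
        rw [Finset.mem_filter] at ha
        have hmem : a ∈ zpowers b := by
          by_cases ha1 : a = 1
          · rw [ha1]; exact one_mem _
          · apply h p hp a b _ hb
            have := orderOf_dvd_of_pow_eq_one ha.2
            rcases (Nat.dvd_prime hp).1 this with h1 | h1
            · exact absurd (orderOf_eq_one_iff.1 h1) ha1
            · exact h1
        rw [← mem_powers_iff_mem_zpowers, mem_powers_iff_mem_range_orderOf, hb] at hmem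
        exact hmem
      calc (Finset.univ.filter (fun a : A => a ^ p = 1)).card ≤
          ((Finset.range p).image (fun i => b ^ i)).card := Finset.card_le_card hsub
        _ ≤ (Finset.range p).card := Finset.card_image_le
        _ = p := Finset.card_range p
    · have hsub : (Finset.univ.filter (fun a : A => a ^ p = 1)) ⊆ {1} := by
        intro a ha
        rw [Finset.mem_filter] at ha
        rw [Finset.mem_singleton]
        by_contra ha1
        apply hex
        refine ⟨a, ?_⟩
        have := orderOf_dvd_of_pow_eq_one ha.2
        rcases (Nat.dvd_prime hp).1 this with h1 | h1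
        · exact absurd (orderOf_eq_one_iff.1 h1) ha1
        · exact h1
      calc (Finset.univ.filter (fun a : A => a ^ p = 1)).card ≤ ({1} : Finset A).card :=
          Finset.card_le_card hsub
        _ = 1 := Finset.card_singleton _
        _ ≤ p := hp.one_lt.le
  have hn : ∀ n : ℕ, 0 < n → (Finset.univ.filter (fun a : A => a ^ n = 1)).card ≤ n := by
    intro n
    induction n using Nat.strong_induction_on with
    | _ n ih =>
      intro hn0
      by_cases hn1 : n = 1
      · subst hn1
        have : (Finset.univ.filter (fun a : A => a ^ 1 = 1)) ⊆ {1} := by
          intro a ha
          rw [Finset.mem_filter, pow_one] at ha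
          rw [Finset.mem_singleton]
          exact ha.2
        exact (Finset.card_le_card this).trans (by simp)
      · obtain ⟨p, hpp, m, rfl⟩ := Nat.exists_prime_and_dvd hn1
        have hm0 : 0 < m := Nat.pos_of_mul_pos_left hn0 |> fun _ => by
          rcases Nat.eq_zero_or_pos m with h0 | h0
          · rw [h0, mul_zero] at hn0; omega
          · exact h0
        have hmlt : m < p * m := by
          have := hpp.one_lt
          nlinarith
        have ihm := ih m hmlt hm0
        have h1 : (Finset.univ.filter (fun a : A => a ^ (p * m) = 1)).card ≤
            p * ((Finset.univ.filter (fun a : A => a ^ (p * m) = 1)).image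
              (fun a => a ^ p)).card := by
          apply Finset.card_le_mul_card_image
          intro y hy
          rw [Finset.mem_image] at hy
          obtain ⟨x0, hx0, hx0y⟩ := hy
          calc (Finset.filter (fun x => x ^ p = y)
              (Finset.univ.filter (fun a : A => a ^ (p * m) = 1))).card ≤
              ((Finset.univ.filter (fun a : A => a ^ p = 1)).image (fun t => x0 * t)).card := by
                apply Finset.card_le_card
                intro x hx
                rw [Finset.mem_filter] at hx
                rw [Finset.mem_image]
                refine ⟨x0⁻¹ * x, ?_, by group⟩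
                rw [Finset.mem_filter]
                refine ⟨Finset.mem_univ _, ?_⟩
                rw [mul_pow, inv_pow, hx0y, hx.2, inv_mul_cancel]
            _ ≤ (Finset.univ.filter (fun a : A => a ^ p = 1)).card := Finset.card_image_le
            _ ≤ p := hp p hpp
        have h2 : ((Finset.univ.filter (fun a : A => a ^ (p * m) = 1)).image
              (fun a => a ^ p)) ⊆ Finset.univ.filter (fun a : A => a ^ m = 1) := by
          intro y hy
          rw [Finset.mem_image] at hy
          obtain ⟨x, hx, rfl⟩ := hy
          rw [Finset.mem_filter] at hx ⊢
          refine ⟨Finset.mem_univ _, ?_⟩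
          rw [← pow_mul]
          exact hx.2
        calc (Finset.univ.filter (fun a : A => a ^ (p * m) = 1)).card ≤ p * _ := h1
          _ ≤ p * (Finset.univ.filter (fun a : A => a ^ m = 1)).card :=
            Nat.mul_le_mul_left _ (Finset.card_le_card h2)
          _ ≤ p * m := Nat.mul_le_mul_left _ ihm
  exact isCyclic_of_card_pow_eq_one_le hn

end Pool.Agent.Helper21.BP
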