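import Mathlib

set_option linter.style.haveILetI false

/-!
Finiteness criteria for torsion groups.
-/

namespace Pool.Agent.Helper21.BP

open Subgroup

universe u

/-- A group with a finite subgroup of finite index is finite. -/
theorem finite_of_finite_finiteIndex {G : Type*} [Group G] (H : Subgroup G) [Finite H]
    [H.FiniteIndex] : Finite G :=
  Finite.of_equiv _ (Subgroup.groupEquivQuotientProdSubgroup (s := H)).symm

/-- A finitely generated torsion group with pairwise commuting elements is finite. -/
theorem finite_of_comm {A : Type*} [Group A] [hfg : Group.FG A] (ht : IsMulTorsion A)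
    (hc : ∀ x y : A, x * y = y * x) : Finite A := by
  letI : CommGroup A := { (inferInstance : Group A) with mul_comm := hc }
  exact CommGroup.finite_of_fg_isMulTorsion A ht

/-- Dietzmann's lemma for one element. -/
theorem dietzmann {G : Type*} [Group G] (ht : IsMulTorsion G) (v : G)
    (hv : (centralizer ({v} : Set G)).FiniteIndex) : Finite (normalClosure ({v} : Set G)) := by
  -- the conjugates are finite in number
  have hS : (Group.conjugatesOfSet ({v} : Set G)).Finite := by
    have h1 : (Set.range (fun g : G => g * v * g⁻¹)).Finite := by
      haveI : Finite (G ⧸ centralizer ({v} : Set G)) := inferInstance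
      let f : (G ⧸ centralizer ({v} : Set G)) → G := Quotient.lift (fun g : G => g * v * g⁻¹) (by
        intro a b hab
        have h2 : a⁻¹ * b ∈ centralizer ({v} : Set G) := QuotientGroup.leftRel_apply.1 hab
        rw [mem_centralizer_iff] at h2
        have h3 := h2 v rfl
        have h4 : a * (v * (a⁻¹ * b)) * b⁻¹ = a * (a⁻¹ * b * v) * b⁻¹ := by rw [h3]
        simpa [mul_assoc] using h4)
      apply (Set.finite_range f).subset
      rintro _ ⟨g, rfl⟩
      exact ⟨(g : G ⧸ centralizer ({v} : Set G)), rfl⟩
    apply h1.subset
    intro x hx
    rw [Group.mem_conjugatesOfSet_iff] at hx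
    obtain ⟨a, ha, hax⟩ := hx
    rw [Set.mem_singleton_iff] at ha
    subst ha
    obtain ⟨c, hc⟩ := isConj_iff.1 hax
    exact ⟨c, hc⟩
  set S := Group.conjugatesOfSet ({v} : Set G) with hSdef
  set V := normalClosure ({v} : Set G) with hV
  have hVS : V = closure S := rfl
  have hfgV : V.FG := by
    rw [hVS]
    exact ⟨hS.toFinset, by rw [Set.Finite.coe_toFinset]⟩
  haveI : Group.FG V := (Group.fg_iff_subgroup_fg V).2 hfgV
  have hSfi : ∀ s ∈ S, (centralizer ({s} : Set G)).FiniteIndex := by
    intro s hs
    rw [hSdef, Group.mem_conjugatesOfSet_iff] at hs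
    obtain ⟨a, ha, has⟩ := hs
    rw [Set.mem_singleton_iff] at ha
    subst ha
    obtain ⟨c, hc⟩ := isConj_iff.1 has
    have h1 : centralizer ({s} : Set G) =
        (centralizer ({a} : Set G)).map (MulAut.conj c).toMonoidHom := by
      ext g
      rw [mem_centralizer_iff, mem_map]
      constructor
      · intro hg
        have hg' := hg s rfl
        refine ⟨c⁻¹ * g * c, ?_, by simp [mul_assoc]⟩
        rw [mem_centralizer_iff]
        intro u hu
        rw [Set.mem_singleton_iff] at hu
        subst hu
        rw [← hc] at hg'
        have h4 : c⁻¹ * (c * u * c⁻¹ * g) * c = c⁻¹ * (g * (c * u * c⁻¹)) * c := by rw [hg']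
        simpa [mul_assoc] using h4
      · rintro ⟨k, hk, rfl⟩ u hu
        rw [Set.mem_singleton_iff] at hu
        subst hu
        have hk' := (mem_centralizer_iff.1 hk) a rfl
        rw [← hc]
        have h4 : c * (a * k) * c⁻¹ = c * (k * a) * c⁻¹ := by rw [hk']
        simpa [mul_assoc] using h4
    rw [h1]
    have h2 := hv.index_ne_zero
    constructor
    have h5 : ((centralizer ({a} : Set G)).map (MulAut.conj c).toMonoidHom).index =
      (centralizer ({a} : Set G)).index := Subgroup.index_map_equiv _ (MulAut.conj c)
    rw [h5]
    exact h2
  -- the centre of `V` has finite index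
  haveI hcen : (center V).FiniteIndex := by
    haveI : Finite S := hS.to_subtype
    have h1 : (⨅ s : S, (centralizer ({(s : G)} : Set G)).subgroupOf V).FiniteIndex := by
      apply finiteIndex_iInf
      intro s
      haveI := hSfi s s.2
      infer_instance
    have hle : (⨅ s : S, (centralizer ({(s : G)} : Set G)).subgroupOf V) ≤ center V := by
      intro z hz
      rw [mem_center_iff]
      intro g
      apply Subtype.ext
      push_cast
      have hzs : ∀ s ∈ S, s * (z : G) = (z : G) * s := by
        intro s hs
        have h2 := (mem_iInf.1 hz) ⟨s, hs⟩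
        rw [mem_subgroupOf, mem_centralizer_iff] at h2
        exact h2 s rfl
      have hVc : closure S ≤ centralizer ({(z : G)} : Set G) := by
        rw [closure_le]
        intro s hs
        rw [SetLike.mem_coe, mem_centralizer_iff]
        intro u hu
        rw [Set.mem_singleton_iff] at hu
        subst hu
        exact (hzs s hs).symm
      have h3 := hVc g.2
      rw [mem_centralizer_iff] at h3
      exact (h3 z rfl).symm
    haveI := h1
    exact finiteIndex_of_le hle
  haveI : Finite (center V) := by
    apply finite_of_comm
    · exact (ht.subgroup V).subgroup (center V)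
    · intro x y
      apply Subtype.ext
      push_cast
      exact ((mem_center_iff.1 x.2) y).symm
  exact finite_of_finite_finiteIndex (center V)

/-- A finitely generated torsion group in which every element commutes with its conjugates is
finite. -/
theorem finite_of_engel (n : ℕ) : ∀ {F : Type u} [Group F] (S : Finset F), S.card ≤ n →
    closure (S : Set F) = ⊤ → IsMulTorsion F → (∀ f h : F, f * (h * f * h⁻¹) = h * f * h⁻¹ * f) →
    Finite F := by
  induction n with
  | zero =>
    intro F _ S hS hgen ht hc
    have : S = ∅ := Finset.card_eq_zero.1 (Nat.le_zero.1 hS)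
    rw [this, Finset.coe_empty, Subgroup.closure_empty] at hgen
    have hsub : Subsingleton F := by
      refine ⟨fun x y => ?_⟩
      have hx : x ∈ (⊥ : Subgroup F) := by rw [hgen]; exact mem_top x
      have hy : y ∈ (⊥ : Subgroup F) := by rw [hgen]; exact mem_top y
      rw [mem_bot.1 hx, mem_bot.1 hy]
    exact Finite.of_subsingleton
  | succ n ih =>
    intro F _ S hS hgen ht hc
    classical
    by_cases hS0 : S = ∅
    · apply ih S (by rw [hS0]; simp) hgen ht hc
    obtain ⟨s, hs⟩ := Finset.nonempty_iff_ne_empty.2 hS0
    set A := normalClosure ({s} : Set F) with hA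
    haveI hAn : A.Normal := normalClosure_normal
    have hAc : ∀ x ∈ A, ∀ y ∈ A, x * y = y * x := by
      have hcc : ∀ x ∈ Group.conjugatesOfSet ({s} : Set F),
          ∀ y ∈ Group.conjugatesOfSet ({s} : Set F), x * y = y * x := by
        intro x hx y hy
        rw [Group.mem_conjugatesOfSet_iff] at hx hy
        obtain ⟨a, ha, hax⟩ := hx
        obtain ⟨b, hb, hby⟩ := hy
        rw [Set.mem_singleton_iff] at ha hb
        subst ha
        subst hb
        obtain ⟨c, rfl⟩ := isConj_iff.1 hax
        obtain ⟨d, rfl⟩ := isConj_iff.1 hby
        have := hc b (c⁻¹ * d)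
        have h4 : c * (b * (c⁻¹ * d * b * (c⁻¹ * d)⁻¹)) * c⁻¹ =
            c * (c⁻¹ * d * b * (c⁻¹ * d)⁻¹ * b) * c⁻¹ := by rw [this]
        simpa [mul_assoc] using h4
      have h1 : A ≤ centralizer (Group.conjugatesOfSet ({s} : Set F)) := by
        rw [hA, normalClosure, closure_le]
        intro x hx
        rw [SetLike.mem_coe, mem_centralizer_iff]
        intro y hy
        exact hcc y hy x hx
      intro x hx
      have h2 : A ≤ centralizer ({x} : Set F) := by
        rw [hA, normalClosure, closure_le]
        intro y hy
        rw [SetLike.mem_coe, mem_centralizer_iff]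
        intro u hu
        rw [Set.mem_singleton_iff] at hu
        subst hu
        have := h1 hx
        rw [mem_centralizer_iff] at this
        exact (this y hy).symm
      intro y hy
      have := h2 hy
      rw [mem_centralizer_iff] at this
      exact this x rfl
    -- the quotient
    haveI hQ : Finite (F ⧸ A) := by
      apply ih ((S.erase s).image (QuotientGroup.mk' A))
      · calc ((S.erase s).image (QuotientGroup.mk' A)).card ≤ (S.erase s).card :=
            Finset.card_image_le
          _ = S.card - 1 := Finset.card_erase_of_mem hs
          _ ≤ n := by omega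
      · rw [Finset.coe_image, ← MonoidHom.map_closure]
        rw [eq_top_iff]
        rintro q -
        obtain ⟨g, rfl⟩ := QuotientGroup.mk'_surjective A q
        have hg : g ∈ closure (S : Set F) := by rw [hgen]; exact mem_top g
        have hle : closure (S : Set F) ≤
            ((closure ((S.erase s : Finset F) : Set F)).map (QuotientGroup.mk' A)).comap
              (QuotientGroup.mk' A) := by
          rw [closure_le]
          intro x hx
          rw [SetLike.mem_coe, mem_comap]
          by_cases hxs : x = s
          · subst hxs
            have : (QuotientGroup.mk' A) x = 1 := by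
              rw [QuotientGroup.mk'_apply, QuotientGroup.eq_one_iff]
              exact subset_normalClosure rfl
            rw [this]
            exact one_mem _
          · exact mem_map_of_mem _ (subset_closure (by
              rw [Finset.coe_erase]
              exact ⟨hx, hxs⟩))
        exact hle hg
      · exact ht.of_surjective (QuotientGroup.mk'_surjective A)
      · intro f h
        obtain ⟨f, rfl⟩ := QuotientGroup.mk'_surjective A f
        obtain ⟨h, rfl⟩ := QuotientGroup.mk'_surjective A h
        rw [← map_inv, ← map_mul, ← map_mul, ← map_mul, ← map_mul, hc f h]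
    haveI : A.FiniteIndex := finiteIndex_of_finite_quotient
    haveI : Group.FG F := ⟨⟨S, hgen⟩⟩
    haveI : Finite A := by
      apply finite_of_comm (ht.subgroup A)
      intro x y
      exact Subtype.ext (hAc _ x.2 _ y.2)
    exact finite_of_finite_finiteIndex A

end Pool.Agent.Helper21.BP
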