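import Pool.Agent.Helper21.BP.Basic
import Pool.Agent.Helper21.BP.Fin

/-!
The case of an involution: no biprimitive finiteness is needed.
-/

set_option linter.style.haveILetI false

namespace Pool.Agent.Helper21.BP

open Subgroup Pointwise

variable {G : Type*} [Group G] {M : Subgroup G}

/-- Every element outside `M` is the product of an element of `M` and an element inverted by the
involution `i` of `M`. -/
theorem Frob.inverted (h : Frob M) {i : G} (hi : i ∈ M) (hi1 : i ≠ 1) (hi2 : i * i = 1) (g : G) :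
    ∃ c ∈ M, ∃ d, g = c * d ∧ i * d * i = d⁻¹ := by
  by_cases hg : g ∈ M
  · exact ⟨g, hg, 1, by simp, by simp [hi2]⟩
  have hii : i⁻¹ = i := inv_eq_of_mul_eq_one_left hi2
  obtain ⟨v, hv⟩ : ∃ v, v = g⁻¹ * i * g := ⟨_, rfl⟩
  have hv2 : v * v = 1 := by
    rw [hv]
    calc g⁻¹ * i * g * (g⁻¹ * i * g) = g⁻¹ * (i * i) * g := by group
      _ = 1 := by rw [hi2]; group
  have hvi : v⁻¹ = v := inv_eq_of_mul_eq_one_left hv2
  obtain ⟨u, hu⟩ : ∃ u, u = i * v := ⟨_, rfl⟩
  have hiu : i * u * i⁻¹ = u⁻¹ := by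
    rw [hu, mul_inv_rev, hvi, hii, ← mul_assoc, hi2, one_mul]
  have hvu : v * u * v⁻¹ = u⁻¹ := by
    rw [hu, mul_inv_rev, hvi, hii]
    rw [mul_assoc, mul_assoc, hv2, mul_one]
  have hipow : ∀ k : ℕ, i * u ^ k * i⁻¹ = (u ^ k)⁻¹ := by
    intro k
    rw [← conj_pow, hiu, inv_pow]
  have hvpow : ∀ k : ℕ, v * u ^ k * v⁻¹ = (u ^ k)⁻¹ := by
    intro k
    rw [← conj_pow, hvu, inv_pow]
  have hfo : IsOfFinOrder u := h.tors u
  have hpos := hfo.orderOf_pos
  rcases Nat.even_or_odd (orderOf u) with he | ho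
  · exfalso
    obtain ⟨m, hm⟩ := he
    obtain ⟨z, hz⟩ : ∃ z, z = u ^ m := ⟨_, rfl⟩
    have hz2 : z * z = 1 := by
      rw [hz, ← pow_add, ← hm, pow_orderOf_eq_one]
    have hz1 : z ≠ 1 := by
      intro h1
      rw [hz] at h1
      have := Nat.le_of_dvd (by omega) (orderOf_dvd_of_pow_eq_one h1)
      omega
    have hzi : z⁻¹ = z := inv_eq_of_mul_eq_one_left hz2
    have h1 : i * z = z * i := by
      have := hipow m
      rw [← hz, hzi] at this
      calc i * z = i * z * i⁻¹ * i := by group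
        _ = z * i := by rw [this]
    have h2 : v * z = z * v := by
      have := hvpow m
      rw [← hz, hzi] at this
      calc v * z = v * z * v⁻¹ * v := by group
        _ = z * v := by rw [this]
    have hzM : z ∈ M := h.cen hi hi1 h1.symm
    have h3 : g * z * g⁻¹ ∈ M := by
      apply h.cen hi hi1
      have : g * (z * v) * g⁻¹ = g * (v * z) * g⁻¹ := by rw [h2]
      rw [hv] at this
      simpa [mul_assoc] using this
    exact hg (h.ti hzM hz1 h3)
  · obtain ⟨m, hm⟩ := ho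
    obtain ⟨d, hd⟩ : ∃ d, d = u ^ (m + 1) := ⟨_, rfl⟩
    have hdd : d * d = u := by
      rw [hd, ← pow_add]
      have : m + 1 + (m + 1) = orderOf u + 1 := by omega
      rw [this, pow_succ, pow_orderOf_eq_one, one_mul]
    have hid : i * d * i⁻¹ = d⁻¹ := by rw [hd]; exact hipow (m + 1)
    refine ⟨g * d⁻¹, ?_, d, by group, by rw [← hid, hii]⟩
    apply h.cen hi hi1
    -- `d⁻¹ i d = v`
    have h1 : d⁻¹ * i * d = v := by
      have h2 : i * d = d⁻¹ * i := by
        calc i * d = i * d * i⁻¹ * i := by group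
          _ = d⁻¹ * i := by rw [hid]
      have h3 : d⁻¹ * i * d = (d * d)⁻¹ * i := by
        rw [mul_assoc, h2, mul_inv_rev, mul_assoc]
      rw [h3, hdd, hu, mul_inv_rev, hvi, hii, mul_assoc, hi2, mul_one]
    have h4 : g⁻¹ * i * g = d⁻¹ * i * d := by rw [h1, hv]
    have h5 : g * (g⁻¹ * i * g) * d⁻¹ = g * (d⁻¹ * i * d) * d⁻¹ := by rw [h4]
    have h6 : i * (g * d⁻¹) = g * d⁻¹ * i := by simpa [mul_assoc] using h5
    exact h6.symm

theorem Frob.even (h : Frob M) {i : G} (hi : i ∈ M) (hi1 : i ≠ 1) (hi2 : i * i = 1) :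
    Finite G := by
  classical
  haveI := h.fin
  haveI : Fintype M := Fintype.ofFinite M
  have hii : i⁻¹ = i := inv_eq_of_mul_eq_one_left hi2
  -- FC elements
  have hfc : ∀ y : G, i * y * i = y⁻¹ → ∃ c ∈ M,
      (centralizer ({c * y⁻¹} : Set G)).FiniteIndex := by
    intro y hy
    -- representatives
    let xc : M → G := fun c => if hx : ∃ x : G, x⁻¹ * (y⁻¹ * (c : G)⁻¹) * x = c * y⁻¹ then
      hx.choose else 1
    have hxc : ∀ c : M, ∀ x : G, x⁻¹ * (y⁻¹ * (c : G)⁻¹) * x = c * y⁻¹ →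
        (xc c)⁻¹ * (y⁻¹ * (c : G)⁻¹) * xc c = c * y⁻¹ := by
      intro c x hx
      have hex : ∃ x : G, x⁻¹ * (y⁻¹ * (c : G)⁻¹) * x = c * y⁻¹ := ⟨x, hx⟩
      simp only [xc, dif_pos hex]
      exact hex.choose_spec
    have hcov : ⋃ q ∈ (Finset.univ : Finset (M × M)), ((q.1 : G) * xc q.2) •
        ((centralizer ({(q.2 : G) * y⁻¹} : Set G) : Subgroup G) : Set G) = Set.univ := by
      rw [Set.eq_univ_iff_forall]
      intro g
      obtain ⟨c0, hc0, x, hgx, hx⟩ := h.inverted hi hi1 hi2 g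
      obtain ⟨c, hc, x', hxx', hx'⟩ := h.inverted hi hi1 hi2 (x * y)
      have hci : i * c = c * i := h.comm i hi c hc
      -- `x⁻¹ y⁻¹ = c x'⁻¹`
      have h1 : x⁻¹ * y⁻¹ = c * x'⁻¹ := by
        rw [← hx, ← hy, ← hx']
        calc i * x * i * (i * y * i) = i * x * (i * i) * y * i := by group
          _ = i * (x * y) * i := by rw [hi2]; group
          _ = i * (c * x') * i := by rw [hxx']
          _ = (i * c) * x' * i := by group
          _ = (c * i) * x' * i := by rw [hci]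
          _ = c * (i * x' * i) := by group
      have h2 : x'⁻¹ = y⁻¹ * x⁻¹ * c := by
        have : x' = c⁻¹ * (x * y) := by rw [hxx']; group
        rw [this]; group
      have h3 : x⁻¹ * (y⁻¹ * c⁻¹) * x = c * y⁻¹ := by
        have : x⁻¹ * y⁻¹ = c * (y⁻¹ * x⁻¹ * c) := by rw [h1, h2]
        calc x⁻¹ * (y⁻¹ * c⁻¹) * x = (x⁻¹ * y⁻¹) * c⁻¹ * x := by group
          _ = (c * (y⁻¹ * x⁻¹ * c)) * c⁻¹ * x := by rw [this]
          _ = c * y⁻¹ := by group
      have h4 := hxc ⟨c, hc⟩ x h3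
      simp only at h4
      rw [Set.mem_iUnion₂]
      refine ⟨(⟨c0, hc0⟩, ⟨c, hc⟩), Finset.mem_univ _, ?_⟩
      rw [mem_leftCoset_iff]
      simp only
      rw [SetLike.mem_coe, mem_centralizer_iff]
      intro w hw
      rw [Set.mem_singleton_iff] at hw
      rw [hw]
      set x0 := xc ⟨c, hc⟩ with hx0
      have h5 : (c0 * x0)⁻¹ * g = x0⁻¹ * x := by rw [hgx]; group
      rw [h5]
      have h6 : x * (c * y⁻¹) * x⁻¹ = y⁻¹ * c⁻¹ := by rw [← h3]; group
      have h7 : x0 * (c * y⁻¹) * x0⁻¹ = y⁻¹ * c⁻¹ := by rw [← h4]; group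
      calc c * y⁻¹ * (x0⁻¹ * x) = x0⁻¹ * (x0 * (c * y⁻¹) * x0⁻¹) * x := by group
        _ = x0⁻¹ * (x * (c * y⁻¹) * x⁻¹) * x := by rw [h7, h6]
        _ = x0⁻¹ * x * (c * y⁻¹) := by group
    obtain ⟨q, -, hq⟩ := Subgroup.exists_finiteIndex_of_leftCoset_cover hcov
    exact ⟨q.2, q.2.2, hq⟩
  by_cases hall : ∀ v : G, (centralizer ({v} : Set G)).FiniteIndex → v = 1
  · exfalso
    apply h.max.1
    rw [eq_top_iff]
    intro g _
    obtain ⟨c, hc, d, hgd, hd⟩ := h.inverted hi hi1 hi2 g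
    obtain ⟨c', hc', hf⟩ := hfc d hd
    have h1 := hall _ hf
    have : d = c' := (mul_inv_eq_one.1 h1).symm
    rw [hgd, this]
    exact M.mul_mem hc hc'
  · push Not at hall
    obtain ⟨v, hv, hv1⟩ := hall
    haveI hfin := dietzmann h.tors v hv
    set V := normalClosure ({v} : Set G) with hV
    haveI : V.Normal := normalClosure_normal
    have hvV : v ∈ V := subset_normalClosure rfl
    have hnle : ¬ V ≤ M := by
      intro hle
      have h1 : V ≤ M.normalCore := normal_le_normalCore.2 hle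
      rw [h.core] at h1
      exact hv1 (mem_bot.1 (h1 hvV))
    have htop : V ⊔ M = ⊤ := by
      rcases (h.max.le_iff).1 (le_sup_right : M ≤ V ⊔ M) with h1 | h1
      · exact h1
      · exfalso
        apply hnle
        rw [← h1]
        exact le_sup_left
    have hset : ((V : Set G) * (M : Set G)) = Set.univ := by
      rw [← Subgroup.normal_mul, htop, coe_top]
    have hfs : (Set.univ : Set G).Finite := by
      rw [← hset]
      exact (Set.toFinite (V : Set G)).mul (Set.toFinite (M : Set G))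
    exact Set.finite_univ_iff.1 hfs

end Pool.Agent.Helper21.BP
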