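import Mathlib

/-!
Finite groups with an abelian malnormal subgroup generated by two conjugate elements of prime
order: the normal complement, by Burnside's transfer.
-/

namespace Pool.Agent.Helper21.BP

open Subgroup

variable {K : Type*} [Group K] [Finite K]

/-- A Sylow subgroup of a finite group with an abelian malnormal subgroup `H` that contains a
nontrivial element of `H` lies in `H` and its normaliser centralises it. -/
theorem sylow_data (H : Subgroup K) (hab : ∀ x ∈ H, ∀ y ∈ H, x * y = y * x)
    (hti : ∀ y ∈ H, y ≠ 1 → ∀ x, x * y * x⁻¹ ∈ H → x ∈ H)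
    {r : ℕ} [Fact r.Prime] (y : K) (hy : y ∈ H) (hy1 : y ≠ 1) (R : Sylow r K)
    (hyR : y ∈ R) : (R : Subgroup K) ≤ H ∧ normalizer (R : Subgroup K) ≤
      centralizer ((R : Subgroup K) : Set K) := by
  have hc : ∀ z : K, z ∈ H → z ≠ 1 → ∀ u : K, u * z = z * u → u ∈ H := by
    intro z hz hz1 u hu
    apply hti z hz hz1 u
    rw [hu, mul_inv_cancel_right]
    exact hz
  have hRH : (R : Subgroup K) ≤ H := by
    have hnt : Nontrivial (R : Subgroup K) := ⟨⟨y, hyR⟩, 1, by
      intro h
      exact hy1 (congrArg Subtype.val h)⟩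
    have hcn : Nontrivial (center (R : Subgroup K)) :=
      IsPGroup.center_nontrivial R.isPGroup'
    obtain ⟨z, hz⟩ := exists_ne (1 : center (R : Subgroup K))
    have hz1 : ((z : (R : Subgroup K)) : K) ≠ 1 := by
      intro h
      apply hz
      apply Subtype.ext
      apply Subtype.ext
      exact h
    have hzc : ∀ u : K, u ∈ (R : Subgroup K) → u * ((z : (R : Subgroup K)) : K) =
        ((z : (R : Subgroup K)) : K) * u := by
      intro u hu
      have := (mem_center_iff.1 z.2) ⟨u, hu⟩
      exact congrArg Subtype.val this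
    have hzH : ((z : (R : Subgroup K)) : K) ∈ H := hc y hy hy1 _ (hzc y hyR).symm
    intro u hu
    exact hc _ hzH hz1 u (hzc u hu)
  refine ⟨hRH, ?_⟩
  intro g hg
  have hgy : g * y * g⁻¹ ∈ (R : Subgroup K) := ((mem_normalizer_iff.1 hg) y).1 hyR
  have hgH : g ∈ H := hti y hy hy1 g (hRH hgy)
  rw [mem_centralizer_iff]
  intro u hu
  exact hab u (hRH hu) g hgH

/-- The normal complement. -/
theorem exists_kernel (H : Subgroup K) (hab : ∀ x ∈ H, ∀ y ∈ H, x * y = y * x)
    (hti : ∀ y ∈ H, y ≠ 1 → ∀ x, x * y * x⁻¹ ∈ H → x ∈ H)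
    {p : ℕ} (hp : p.Prime) (a b : K) (ha : a ∈ H) (hpa : orderOf a = p)
    (hconj : IsConj a b) (hgen : closure {a, b} = (⊤ : Subgroup K)) :
    ∃ N : Subgroup K, N.Normal ∧ b * a⁻¹ ∈ N ∧ ∀ n ∈ N, n ∈ H → n = 1 := by
  haveI : Fact p.Prime := ⟨hp⟩
  have ha1 : a ≠ 1 := by
    intro h
    rw [h, orderOf_one] at hpa
    exact hp.one_lt.ne hpa
  obtain ⟨c, hc⟩ := isConj_iff.1 hconj
  -- Sylow subgroup through an element of prime order
  have key : ∀ (r : ℕ) [Fact r.Prime] (y : K), y ∈ H → orderOf y = r →
      ∃ R : Sylow r K, y ∈ R ∧ (R : Subgroup K) ≤ H ∧ normalizer (R : Subgroup K) ≤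
        centralizer ((R : Subgroup K) : Set K) := by
    intro r hr y hy hyr
    have hy1 : y ≠ 1 := by
      intro h
      rw [h, orderOf_one] at hyr
      exact hr.out.one_lt.ne hyr
    have hpg : IsPGroup r (zpowers y) := by
      apply IsPGroup.of_card (n := 1)
      rw [Nat.card_zpowers, hyr, pow_one]
    obtain ⟨R, hR⟩ := hpg.exists_le_sylow
    have hyR : y ∈ R := hR (mem_zpowers y)
    exact ⟨R, hyR, sylow_data H hab hti y hy hy1 R hyR⟩
  obtain ⟨P, haP, hPH, hPn⟩ := key p a ha hpa
  refine ⟨(MonoidHom.transferSylow P hPn).ker, inferInstance, ?_, ?_⟩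
  · rw [MonoidHom.mem_ker, map_mul, map_inv, ← hc, map_mul, map_mul, map_inv]
    have hcomm : ∀ u v : (P : Subgroup K), u * v = v * u := by
      intro u v
      exact Subtype.ext (hab _ (hPH u.2) _ (hPH v.2))
    rw [hcomm (MonoidHom.transferSylow P hPn c) (MonoidHom.transferSylow P hPn a),
      mul_inv_cancel_right, mul_inv_cancel]
  · intro n hn hnH
    by_contra hn1
    -- a prime divisor of the order of n
    obtain ⟨r, hr, hrn⟩ := Nat.exists_prime_and_dvd (n := orderOf n) (by
      intro h
      exact hn1 (orderOf_eq_one_iff.1 h))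
    haveI : Fact r.Prime := ⟨hr⟩
    obtain ⟨m, hm⟩ := hrn
    have hfin : IsOfFinOrder n := isOfFinOrder_of_finite n
    have hpos : 0 < orderOf n := hfin.orderOf_pos
    have hm0 : m ≠ 0 := by
      rintro rfl
      rw [mul_zero] at hm
      omega
    have hyo : orderOf (n ^ m) = r := by
      rw [orderOf_pow_of_dvd hm0 ⟨r, by rw [hm, mul_comm]⟩, hm,
        Nat.mul_div_cancel _ (Nat.pos_of_ne_zero hm0)]
    have hyH : n ^ m ∈ H := H.pow_mem hnH m
    have hyk : n ^ m ∈ (MonoidHom.transferSylow P hPn).ker := Subgroup.pow_mem _ hn m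
    have hy1 : n ^ m ≠ 1 := by
      intro h
      rw [h, orderOf_one] at hyo
      exact hr.one_lt.ne hyo
    by_cases hrp : r = p
    · subst hrp
      have hd := MonoidHom.ker_transferSylow_disjoint P hPn (zpowers (n ^ m)) (by
        apply IsPGroup.of_card (n := 1)
        rw [Nat.card_zpowers, hyo, pow_one])
      rw [Subgroup.disjoint_def] at hd
      exact hy1 (hd hyk (mem_zpowers _))
    · obtain ⟨R, hyR, hRH, hRn⟩ := key r (n ^ m) hyH hyo
      have htriv : ∀ u : K, u ^ p = 1 → MonoidHom.transferSylow R hRn u = 1 := by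
        intro u hu
        have h1 : (MonoidHom.transferSylow R hRn u) ^ p = 1 := by
          rw [← map_pow, hu, map_one]
        have h2 : orderOf (MonoidHom.transferSylow R hRn u) ∣ p := orderOf_dvd_of_pow_eq_one h1
        obtain ⟨k, hk⟩ := (IsPGroup.iff_orderOf.1 R.isPGroup') (MonoidHom.transferSylow R hRn u)
        rcases (Nat.dvd_prime hp).1 h2 with h3 | h3
        · exact orderOf_eq_one_iff.1 h3
        · exfalso
          rw [h3] at hk
          have : r ∣ p ∨ k = 0 := by
            by_cases hk0 : k = 0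
            · exact Or.inr hk0
            · left
              rw [hk]
              exact dvd_pow_self r hk0
          rcases this with h | h
          · exact hrp ((Nat.prime_dvd_prime_iff_eq hr hp).1 h)
          · rw [h, pow_zero] at hk
            exact hp.one_lt.ne hk.symm
      have hap : a ^ p = 1 := by rw [← hpa]; exact pow_orderOf_eq_one a
      have hbp : b ^ p = 1 := by
        rw [← hc, conj_pow, hap, mul_one, mul_inv_cancel]
      have htop : (MonoidHom.transferSylow R hRn).ker = ⊤ := by
        rw [← top_le_iff, ← hgen, closure_le]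
        intro u hu
        rcases hu with h | h
        · rw [h]; exact htriv a hap
        · rw [Set.mem_singleton_iff] at h
          rw [h]; exact htriv b hbp
      have hd := MonoidHom.ker_transferSylow_disjoint R hRn (zpowers (n ^ m)) (by
        apply IsPGroup.of_card (n := 1)
        rw [Nat.card_zpowers, hyo, pow_one])
      rw [Subgroup.disjoint_def] at hd
      exact hy1 (hd (by rw [htop]; exact mem_top _) (mem_zpowers _))

end Pool.Agent.Helper21.BP
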