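import Mathlib

/-!
An elementary abelian group of order `p²` does not act fixed point freely on a nontrivial
finite group.
-/

set_option linter.style.haveILetI false

namespace Pool.Agent.Helper21.BP

open Subgroup
open scoped Pointwise

section Norms

variable {A : Type*} [CommGroup A] {p : ℕ} [Fact p.Prime]

theorem pow_val (γ : MulAut A) (hγ : γ ^ p = 1) (n : ℕ) :
    γ ^ ((n : ZMod p)).val = γ ^ n := by
  rw [ZMod.val_natCast]
  conv_rhs => rw [← Nat.div_add_mod n p, pow_add, pow_mul, hγ, one_pow, one_mul]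

/-- The norm. -/
def nrm (p : ℕ) [Fact p.Prime] (γ : MulAut A) (z : A) : A :=
  ∏ i : ZMod p, (γ ^ i.val) z

theorem nrm_fixed (γ : MulAut A) (hγ : γ ^ p = 1) (z : A) : γ (nrm p γ z) = nrm p γ z := by
  unfold nrm
  rw [map_prod]
  have h1 : ∀ i : ZMod p, γ ((γ ^ i.val) z) = (γ ^ (i + 1).val) z := by
    intro i
    have h2 : γ ((γ ^ i.val) z) = (γ ^ (i.val + 1)) z := by
      rw [pow_succ']
      rfl
    rw [h2, ← pow_val γ hγ (i.val + 1)]
    congr 3
    push_cast
    rw [ZMod.natCast_zmod_val]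
  rw [Finset.prod_congr rfl (fun i _ => h1 i)]
  exact Fintype.prod_equiv (Equiv.addRight (1 : ZMod p)) _ _ (fun i => rfl)

theorem no_rank_two (α β : MulAut A) (hαβ : α * β = β * α) (hα : α ^ p = 1) (hβ : β ^ p = 1)
    (h1 : ∀ z, β z = z → z = 1)
    (h2 : ∀ j : ZMod p, ∀ z, (α * β ^ j.val) z = z → z = 1) (z : A) : z ^ p = 1 := by
  have hc : Commute α β := hαβ
  have hn1 : ∀ w, nrm p β w = 1 := fun w => h1 _ (nrm_fixed β hβ w)
  have hn2 : ∀ j : ZMod p, ∀ w, nrm p (α * β ^ j.val) w = 1 := by
    intro j w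
    apply h2 j
    apply nrm_fixed
    rw [(hc.pow_right _).mul_pow, hα, one_mul, ← pow_mul, mul_comm, pow_mul, hβ, one_pow]
  have hprod : ∏ j : ZMod p, nrm p (α * β ^ j.val) z = 1 :=
    Finset.prod_eq_one (fun j _ => hn2 j z)
  unfold nrm at hprod
  rw [Finset.prod_comm] at hprod
  have hi : ∀ i : ZMod p, (∏ j : ZMod p, ((α * β ^ j.val) ^ i.val) z) =
      if i = 0 then z ^ p else 1 := by
    intro i
    by_cases hi0 : i = 0
    · rw [if_pos hi0, hi0]
      simp
    · rw [if_neg hi0]
      have h3 : ∀ j : ZMod p, ((α * β ^ j.val) ^ i.val) z =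
          (β ^ (j * i).val) ((α ^ i.val) z) := by
        intro j
        rw [(hc.pow_right _).mul_pow, ← pow_mul]
        have h4 : β ^ (j.val * i.val) = β ^ (j * i).val := by
          rw [← pow_val β hβ (j.val * i.val)]
          congr 2
          push_cast
          rw [ZMod.natCast_zmod_val, ZMod.natCast_zmod_val]
        rw [h4, ((hc.pow_left _).pow_right _).eq]
        rfl
      rw [Finset.prod_congr rfl (fun j _ => h3 j)]
      have h5 : (∏ j : ZMod p, (β ^ (j * i).val) ((α ^ i.val) z)) =
          ∏ k : ZMod p, (β ^ k.val) ((α ^ i.val) z) :=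
        Fintype.prod_equiv (Equiv.mulRight₀ i hi0) _ _ (fun j => rfl)
      rw [h5]
      exact hn1 _
  rw [Finset.prod_congr rfl (fun i _ => hi i), Finset.prod_ite_eq' Finset.univ (0 : ZMod p)] at hprod
  simpa using hprod

end Norms

/-- Fixed point free action of `E = C_p × C_p` on a finite group `N`. -/
theorem no_rank_two_group {G : Type*} [Group G] {p : ℕ} (hp : p.Prime) (a b : G)
    (hab : a * b = b * a) (hap : a ^ p = 1) (hbp : b ^ p = 1) (N : Subgroup G) (hfin : Finite N)
    (haN : ∀ n ∈ N, a * n * a⁻¹ ∈ N) (hbN : ∀ n ∈ N, b * n * b⁻¹ ∈ N)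
    (h1 : ∀ z ∈ N, z * b = b * z → z = 1)
    (h2 : ∀ j : ℕ, ∀ z ∈ N, z * (a * b ^ j) = a * b ^ j * z → z = 1) : N = ⊥ := by
  haveI : Fact p.Prime := ⟨hp⟩
  by_contra hN
  -- the acting group
  set E : Subgroup G := closure {a, b} with hE
  have haE : a ∈ E := subset_closure (by simp)
  have hbE : b ∈ E := subset_closure (by simp)
  have hNfin : ∀ g : G, (∀ n ∈ N, g * n * g⁻¹ ∈ N) → g ∈ normalizer (N : Set G) := by
    intro g hg
    rw [mem_normalizer_iff]
    intro n
    constructor
    · exact hg n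
    · intro hn
      -- finite order argument: the map is injective on the finite set, hence surjective
      have hinj : Function.Injective (fun m : N => (⟨g * (m : G) * g⁻¹, hg _ m.2⟩ : N)) := by
        intro m1 m2 h12
        have := congrArg Subtype.val h12
        apply Subtype.ext
        simpa using this
      obtain ⟨m, hm⟩ := Finite.surjective_of_injective hinj ⟨_, hn⟩
      have h3 := congrArg Subtype.val hm
      have h4 : (m : G) = n := by simpa using h3
      rw [← h4]
      exact m.2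
  have hEN : E ≤ normalizer (N : Set G) := by
    rw [hE, closure_le]
    intro g hg
    rcases hg with h | h
    · rw [h]; exact hNfin a haN
    · rw [Set.mem_singleton_iff] at h
      rw [h]; exact hNfin b hbN
  -- elements of `E`
  have hEform : ∀ e ∈ E, ∃ i j : ℕ, e = a ^ i * b ^ j := by
    intro e he
    have hc : Commute a b := hab
    let E' : Subgroup G :=
      { carrier := {e | ∃ i j : ℕ, e = a ^ i * b ^ j}
        mul_mem' := by
          rintro _ _ ⟨i, j, rfl⟩ ⟨k, l, rfl⟩
          refine ⟨i + k, j + l, ?_⟩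
          rw [pow_add, pow_add, mul_assoc, mul_assoc, ← mul_assoc (b ^ j),
            ← ((hc.pow_left k).pow_right j).eq, mul_assoc]
        one_mem' := ⟨0, 0, by simp⟩
        inv_mem' := by
          rintro _ ⟨i, j, rfl⟩
          refine ⟨(p - 1) * i, (p - 1) * j, ?_⟩
          have hp1 : p - 1 + 1 = p := Nat.sub_add_cancel hp.one_lt.le
          have e1 : a ^ ((p - 1) * i) = (a ^ i)⁻¹ := by
            rw [eq_inv_iff_mul_eq_one, ← pow_add]
            have : (p - 1) * i + i = p * i := by
              conv_rhs => rw [← hp1]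
              ring
            rw [this, pow_mul, hap, one_pow]
          have e2 : b ^ ((p - 1) * j) = (b ^ j)⁻¹ := by
            rw [eq_inv_iff_mul_eq_one, ← pow_add]
            have : (p - 1) * j + j = p * j := by
              conv_rhs => rw [← hp1]
              ring
            rw [this, pow_mul, hbp, one_pow]
          rw [e1, e2, mul_inv_rev, ← mul_inv_rev, ← mul_inv_rev,
            ((hc.pow_left i).pow_right j).eq] }
    have hle : E ≤ E' := by
      rw [hE, closure_le]
      intro g hg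
      rcases hg with h | h
      · rw [h]; exact ⟨1, 0, by simp⟩
      · rw [Set.mem_singleton_iff] at h
        rw [h]; exact ⟨0, 1, by simp⟩
    exact hle he
  have hEp : IsPGroup p E := by
    intro e
    refine ⟨1, ?_⟩
    obtain ⟨i, j, hij⟩ := hEform e e.2
    apply Subtype.ext
    push_cast
    have hc : Commute a b := hab
    rw [hij, pow_one, ((hc.pow_left i).pow_right j).mul_pow, ← pow_mul, ← pow_mul, mul_comm i,
      mul_comm j, pow_mul, pow_mul, hap, hbp, one_pow, one_pow, one_mul]
  -- the action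
  let φ : E →* MulAut N := (N.normalizerMonoidHom).comp (inclusion hEN)
  letI act : MulDistribMulAction E N := MulDistribMulAction.compHom N φ
  have hact : ∀ (e : E) (n : N), ((e • n : N) : G) = (e : G) * (n : G) * (e : G)⁻¹ := by
    intro e n
    rfl
  -- `p` does not divide the order of `N`
  have hpN : ¬ p ∣ Nat.card N := by
    intro hdvd
    obtain ⟨n, hn, hn1⟩ := hEp.exists_fixed_point_of_prime_dvd_card_of_fixed_point N hdvd
      (a := (1 : N)) (by
        intro e
        exact smul_one e)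
    have h3 := hn ⟨b, hbE⟩
    have h4 := congrArg Subtype.val h3
    rw [hact] at h4
    have h5 : (n : G) = 1 := by
      apply h1 _ n.2
      exact (mul_inv_eq_iff_eq_mul.1 h4).symm
    exact hn1 (Subtype.ext h5.symm)
  have hcard1 : Nat.card N ≠ 1 := by
    intro h3
    exact hN (card_eq_one.1 h3)
  obtain ⟨q, hq, hqN⟩ := Nat.exists_prime_and_dvd hcard1
  haveI : Fact q.Prime := ⟨hq⟩
  have hqp : q ≠ p := by
    rintro rfl
    exact hpN hqN
  have hpS : ¬ p ∣ Nat.card (Sylow q N) := by
    intro hdvd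
    obtain ⟨P⟩ : Nonempty (Sylow q N) := inferInstance
    apply hpN
    exact (hdvd.trans P.card_dvd_index).trans (index_dvd_card _)
  obtain ⟨P, hP⟩ := hEp.nonempty_fixed_point_of_prime_not_dvd_card (Sylow q N) hpS
  have hPinv : ∀ e : E, ∀ n : N, n ∈ (P : Subgroup N) → e • n ∈ (P : Subgroup N) := by
    intro e n hn
    have h3 := hP e
    have h4 : e • n ∈ (e • (P : Subgroup N)) := smul_mem_pointwise_smul n e _ hn
    rw [← Sylow.pointwise_smul_def, h3] at h4
    exact h4
  -- the centre
  haveI hnt : Nontrivial (P : Subgroup N) := (nontrivial_iff_ne_bot _).2 (P.ne_bot_of_dvd_card hqN)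
  haveI : Nontrivial (center (P : Subgroup N)) := IsPGroup.center_nontrivial P.isPGroup'
  -- the centre as a subgroup of `G`
  let Z : Subgroup G :=
    { carrier := {z | ∃ hz : z ∈ N, (⟨z, hz⟩ : N) ∈ (P : Subgroup N) ∧
        ∀ n : N, n ∈ (P : Subgroup N) → (n : G) * z = z * (n : G)}
      mul_mem' := by
        rintro x y ⟨hx, hxP, hxc⟩ ⟨hy, hyP, hyc⟩
        refine ⟨N.mul_mem hx hy, (P : Subgroup N).mul_mem hxP hyP, ?_⟩
        intro n hn
        rw [← mul_assoc, hxc n hn, mul_assoc, hyc n hn, mul_assoc]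
      one_mem' := ⟨N.one_mem, (P : Subgroup N).one_mem, by simp⟩
      inv_mem' := by
        rintro x ⟨hx, hxP, hxc⟩
        refine ⟨N.inv_mem hx, (P : Subgroup N).inv_mem hxP, ?_⟩
        intro n hn
        have := hxc n hn
        calc (n : G) * x⁻¹ = x⁻¹ * (x * (n : G)) * x⁻¹ := by group
          _ = x⁻¹ * ((n : G) * x) * x⁻¹ := by rw [this]
          _ = x⁻¹ * (n : G) := by group }
  have hZN : ∀ z ∈ Z, z ∈ N := fun z hz => hz.1
  have hZinv : ∀ e ∈ E, ∀ z ∈ Z, e * z * e⁻¹ ∈ Z := by
    rintro e he z ⟨hz, hzP, hzc⟩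
    have h3 := hPinv ⟨e, he⟩ ⟨z, hz⟩ hzP
    have h4 : e * z * e⁻¹ ∈ N := ((mem_normalizer_iff.1 (hEN he)) z).1 hz
    refine ⟨h4, h3, ?_⟩
    intro n hn
    have h5 := hPinv ⟨e⁻¹, E.inv_mem he⟩ n hn
    have h6 := hzc _ h5
    rw [hact] at h6
    simp only [inv_inv] at h6
    calc (n : G) * (e * z * e⁻¹) = e * (e⁻¹ * (n : G) * e * z) * e⁻¹ := by group
      _ = e * (z * (e⁻¹ * (n : G) * e)) * e⁻¹ := by rw [h6]
      _ = e * z * e⁻¹ * (n : G) := by group
  have hZnorm : E ≤ normalizer (Z : Set G) := by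
    intro e he
    rw [mem_normalizer_iff]
    intro z
    constructor
    · exact hZinv e he z
    · intro hz
      have := hZinv e⁻¹ (E.inv_mem he) _ hz
      have h3 : e⁻¹ * (e * z * e⁻¹) * e⁻¹⁻¹ = z := by group
      rwa [h3] at this
  letI hZcg : CommGroup Z := { (inferInstance : Group Z) with
    mul_comm := by
      rintro ⟨x, hx, hxP, hxc⟩ ⟨y, hy, hyP, hyc⟩
      apply Subtype.ext
      exact hyc ⟨x, hx⟩ hxP }
  let ψ : E →* MulAut Z := (Z.normalizerMonoidHom).comp (inclusion hZnorm)
  have hψ : ∀ (e : E) (z : Z), ((ψ e z : Z) : G) = (e : G) * (z : G) * (e : G)⁻¹ := by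
    intro e z
    rfl
  set a' : E := ⟨a, haE⟩ with ha'
  set b' : E := ⟨b, hbE⟩ with hb'
  have hab' : a' * b' = b' * a' := Subtype.ext hab
  have ha'p : a' ^ p = 1 := Subtype.ext (by push_cast; exact hap)
  have hb'p : b' ^ p = 1 := Subtype.ext (by push_cast; exact hbp)
  have hzp : ∀ z : Z, z ^ p = 1 := by
    intro z
    apply no_rank_two (ψ a') (ψ b')
    · rw [← map_mul, hab', map_mul]
    · rw [← map_pow, ha'p, map_one]
    · rw [← map_pow, hb'p, map_one]
    · intro w hw
      have h3 := congrArg Subtype.val hw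
      rw [hψ] at h3
      apply Subtype.ext
      apply h1 _ (hZN _ w.2)
      exact (mul_inv_eq_iff_eq_mul.1 h3).symm
    · intro j w hw
      rw [← map_pow, ← map_mul] at hw
      have h3 := congrArg Subtype.val hw
      rw [hψ] at h3
      apply Subtype.ext
      apply h2 j.val _ (hZN _ w.2)
      have h4 := (mul_inv_eq_iff_eq_mul.1 h3).symm
      simpa [ha', hb'] using h4
  -- a nontrivial central element
  obtain ⟨z, hz⟩ := exists_ne (1 : center (P : Subgroup N))
  have hz1 : (((z : (P : Subgroup N)) : N) : G) ≠ 1 := by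
    intro h
    apply hz
    apply Subtype.ext
    apply Subtype.ext
    apply Subtype.ext
    exact h
  have hzZ : (((z : (P : Subgroup N)) : N) : G) ∈ Z := by
    refine ⟨((z : (P : Subgroup N)) : N).2, (z : (P : Subgroup N)).2, ?_⟩
    intro n hn
    have := (mem_center_iff.1 z.2) ⟨n, hn⟩
    exact congrArg (fun t : (P : Subgroup N) => ((t : N) : G)) this
  have h3 := hzp ⟨_, hzZ⟩
  have h4 : (((z : (P : Subgroup N)) : N) : G) ^ p = 1 := congrArg Subtype.val h3
  -- but its order is a power of `q`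
  obtain ⟨k, hk⟩ := P.isPGroup' (z : (P : Subgroup N))
  have h5 : (((z : (P : Subgroup N)) : N) : G) ^ q ^ k = 1 := by
    have := congrArg (fun t : (P : Subgroup N) => ((t : N) : G)) hk
    simpa using this
  have h6 : orderOf (((z : (P : Subgroup N)) : N) : G) ∣ p := orderOf_dvd_of_pow_eq_one h4
  have h7 : orderOf (((z : (P : Subgroup N)) : N) : G) ∣ q ^ k := orderOf_dvd_of_pow_eq_one h5
  have h8 : Nat.Coprime p (q ^ k) := by
    apply Nat.Coprime.pow_right
    exact (Nat.coprime_primes hp hq).2 (Ne.symm hqp)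
  have h9 := Nat.eq_one_of_dvd_coprimes h8 h6 h7
  exact hz1 (orderOf_eq_one_iff.1 h9)

end Pool.Agent.Helper21.BP
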