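import Pool.Agent.Helper21.BP.Three
import Pool.Agent.Helper21.BP.NoRank

/-!
Biprimitively finite groups: a pair of elements of prime order of the maximal subgroup.
-/

set_option linter.style.haveILetI false

namespace Pool.Agent.Helper21.BP

open Subgroup

variable {G : Type*} [Group G] {M : Subgroup G}

/-- If `a`, `b` in `M` have prime order, `|a|` is odd and `K = ⟨a, x b x⁻¹⟩` is finite, then
`b ∈ K`; moreover, if `x ∉ M`, the intersection with the normal complement is nontrivial. -/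
theorem Frob.mem_of (h : Frob M) {p : ℕ} (hp : p.Prime) (hp2 : p ≠ 2) {a b : G} (ha : a ∈ M)
    (hpa : orderOf a = p) (hfin : ∀ x : G, Finite (closure ({a, x * a * x⁻¹} : Set G)))
    (hb : b ∈ M) (hb1 : b ≠ 1) (x : G) (hK : Finite (closure ({a, x * b * x⁻¹} : Set G))) :
    b ∈ closure ({a, x * b * x⁻¹} : Set G) ∧
    ∃ N : Subgroup G, Finite N ∧ N ≤ closure ({a, x * b * x⁻¹} : Set G) ∧
      (∀ g ∈ closure ({a, x * b * x⁻¹} : Set G), ∀ n ∈ N, g * n * g⁻¹ ∈ N) ∧
      (∀ n ∈ N, n ∈ M → n = 1) ∧ (N = ⊥ → x ∈ M) := by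
  have ha1 : a ≠ 1 := by
    intro h
    rw [h, orderOf_one] at hpa
    exact hp.one_lt.ne hpa
  obtain ⟨F, hFn, hF, hFM⟩ := h.split hp hp2 ha hpa hfin
  haveI := hFn
  obtain ⟨htop, hfi⟩ := h.compl ha ha1 F hF hFM
  set K := closure ({a, x * b * x⁻¹} : Set G) with hKdef
  haveI : Finite K := hK
  have haK : a ∈ K := subset_closure (by simp)
  have hdK : x * b * x⁻¹ ∈ K := subset_closure (by simp)
  set d := x * b * x⁻¹ with hd
  set N : Subgroup G := K ⊓ F with hN
  haveI hNfin : Finite N := Finite.of_injective (inclusion (inf_le_left : K ⊓ F ≤ K))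
    (inclusion_injective _)
  have hNK : ∀ g ∈ K, ∀ n ∈ N, g * n * g⁻¹ ∈ N := by
    intro g hg n hn
    exact ⟨K.mul_mem (K.mul_mem hg hn.1) (K.inv_mem hg), hFn.conj_mem n hn.2 g⟩
  have hNM : ∀ n ∈ N, n ∈ M → n = 1 := fun n hn hnM => hFM n hn.2 hnM
  have hcomm : d * a * d⁻¹ * a⁻¹ ∈ N :=
    ⟨K.mul_mem (K.mul_mem (K.mul_mem hdK haK) (K.inv_mem hdK)) (K.inv_mem haK),
      (hF _).2 ⟨d, rfl⟩⟩
  obtain ⟨m, hm, hma⟩ := h.conj_surj ha ha1 N hNfin (hNK a haK) hNM _ hcomm
  have hma' : m⁻¹ * a * m = d * a * d⁻¹ := by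
    have := congrArg (fun t => t * a) hma
    simpa [mul_assoc] using this
  have he : m * d ∈ M := by
    apply h.cen ha ha1
    have h1 : m * (m⁻¹ * a * m) * d = m * (d * a * d⁻¹) * d := by rw [hma']
    have h2 : a * (m * d) = m * d * a := by simpa [mul_assoc] using h1
    exact h2.symm
  -- `x = f m'`
  have hx : x ∈ F ⊔ M := by rw [htop]; exact mem_top x
  rw [← SetLike.mem_coe, Subgroup.normal_mul, Set.mem_mul] at hx
  obtain ⟨f, hf, m', hm', hfx⟩ := hx
  have hdF : d * b⁻¹ ∈ F := by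
    have h1 : d * b⁻¹ = f * (b * f⁻¹ * b⁻¹) := by
      rw [hd, ← hfx]
      have h2 : m' * b * m'⁻¹ = b := by
        rw [h.comm m' hm' b hb]; group
      calc f * m' * b * (f * m')⁻¹ * b⁻¹ = f * (m' * b * m'⁻¹) * f⁻¹ * b⁻¹ := by group
        _ = f * b * f⁻¹ * b⁻¹ := by rw [h2]
        _ = f * (b * f⁻¹ * b⁻¹) := by group
    rw [h1]
    exact F.mul_mem hf (hFn.conj_mem _ (F.inv_mem hf) b)
  have hmd : m * d * b⁻¹ ∈ F := by
    rw [mul_assoc]
    exact F.mul_mem hm.2 hdF
  have hmb : m * d = b := by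
    have := hFM _ hmd (M.mul_mem he (M.inv_mem hb))
    exact mul_inv_eq_one.1 this
  refine ⟨?_, N, hNfin, inf_le_left, hNK, hNM, ?_⟩
  · rw [← hmb]
    exact K.mul_mem hm.1 hdK
  · intro hbot
    rw [hbot, mem_bot] at hm
    rw [hm, one_mul] at hmb
    apply h.ti hb hb1
    rw [← hd, hmb]
    exact hb

/-- `M` is not generated by two elements of prime order. -/
theorem Frob.two_gen (h : Frob M) {p : ℕ} (hp : p.Prime) (hp2 : p ≠ 2) {a b : G} (ha : a ∈ M)
    (hpa : orderOf a = p) (hb : b ∈ M) (hb1 : b ≠ 1)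
    (hfin : ∀ x : G, Finite (closure ({a, x * a * x⁻¹} : Set G)))
    (hfin2 : ∀ x : G, Finite (closure ({a, x * b * x⁻¹} : Set G)))
    (hgen : M ≤ closure {a, b}) : Finite G := by
  have hne : ∃ x, x ∉ M := by
    by_contra hall
    push Not at hall
    apply h.max.1
    rw [eq_top_iff]
    intro g _
    exact hall g
  obtain ⟨x, hx⟩ := hne
  have h1 := (h.mem_of hp hp2 ha hpa hfin hb hb1 x (hfin2 x)).1
  have hle : M ≤ closure ({a, x * b * x⁻¹} : Set G) := by
    apply hgen.trans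
    rw [closure_le]
    intro g hg
    rcases hg with h2 | h2
    · rw [h2]; exact subset_closure (by simp)
    · rw [Set.mem_singleton_iff] at h2
      rw [h2]; exact h1
  haveI := hfin2 x
  rcases (h.max.le_iff).1 hle with h2 | h2
  · rw [h2] at this
    exact (Subgroup.topEquiv (G := G)).toEquiv.finite_iff.1 this
  · exfalso
    apply hx
    apply h.ti hb hb1
    rw [← h2]
    exact subset_closure (by simp)

/-- If `M` has two commuting elements of the same prime order generating a noncyclic group then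
`G` is finite. -/
theorem Frob.rank_two (h : Frob M) {p : ℕ} (hp : p.Prime) (hp2 : p ≠ 2) {a b : G} (ha : a ∈ M)
    (hpa : orderOf a = p) (hb : b ∈ M) (hpb : orderOf b = p) (hab : a ∉ zpowers b)
    (hfin : ∀ x : G, Finite (closure ({a, x * a * x⁻¹} : Set G)))
    (hfin2 : ∀ x : G, Finite (closure ({a, x * b * x⁻¹} : Set G))) : False := by
  have hne : ∃ x, x ∉ M := by
    by_contra hall
    push Not at hall
    apply h.max.1
    rw [eq_top_iff]
    intro g _
    exact hall g
  obtain ⟨x, hx⟩ := hne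
  have hb1 : b ≠ 1 := by
    intro h
    rw [h, orderOf_one] at hpb
    exact hp.one_lt.ne hpb
  obtain ⟨hbK, N, hNfin, hNle, hNK, hNM, hNbot⟩ :=
    h.mem_of hp hp2 ha hpa hfin hb hb1 x (hfin2 x)
  apply hx
  apply hNbot
  apply no_rank_two_group hp a b (h.comm a ha b hb) (by rw [← hpa]; exact pow_orderOf_eq_one a)
    (by rw [← hpb]; exact pow_orderOf_eq_one b) N hNfin
    (hNK a (subset_closure (by simp))) (hNK b hbK)
  · intro z hz hzb
    exact hNM z hz (h.cen hb hb1 hzb)
  · intro j z hz hzb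
    have hm : a * b ^ j ∈ M := M.mul_mem ha (M.pow_mem hb j)
    apply hNM z hz
    apply h.cen hm _ hzb
    intro h1
    apply hab
    have : a = (b ^ j)⁻¹ := eq_inv_of_mul_eq_one_left h1
    rw [this]
    exact (zpowers b).inv_mem ((zpowers b).pow_mem (mem_zpowers b) j)

end Pool.Agent.Helper21.BP
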