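import Pool.Agent.Helper21.BP.Even
import Pool.Agent.Helper21.BP.TwoGen
import Pool.Agent.Helper21.BP.Cyc

/-!
Biprimitively finite groups with a finite maximal subgroup that is abelian modulo its core:
definitions and reduction to the core free case.
-/

set_option linter.style.haveILetI false

namespace Pool.Agent.Helper21.BP

open Subgroup

/-- `G` is biprimitively finite: for every finite subgroup `H`, any two elements of prime order
of `N_G(H)/H` generate a finite subgroup. -/
def BiprimitivelyFinite (G : Type*) [Group G] : Prop :=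
  ∀ H : Subgroup G, Finite H →
    ∀ x y : (normalizer (H : Set G)) ⧸ H.subgroupOf (normalizer (H : Set G)),
      (orderOf x).Prime → (orderOf y).Prime → Finite (closure {x, y})

/-- `G` is conjugacy biprimitively finite: for every finite subgroup `H`, any two conjugate
elements of prime order of `N_G(H)/H` generate a finite subgroup. -/
def ConjugacyBiprimitivelyFinite (G : Type*) [Group G] : Prop :=
  ∀ H : Subgroup G, Finite H →
    ∀ x y : (normalizer (H : Set G)) ⧸ H.subgroupOf (normalizer (H : Set G)),
      (orderOf x).Prime → IsConj x y → Finite (closure {x, y})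

section CoreFree

variable {G : Type*} [Group G] {M : Subgroup G}

theorem Frob.not_even (h : Frob M) (hinf : Infinite G) : ¬ 2 ∣ Nat.card M := by
  intro hd
  haveI := h.fin
  obtain ⟨i, hi⟩ := exists_prime_orderOf_dvd_card' (G := M) 2 hd
  have hi2 : (i : G) * i = 1 := by
    have := pow_orderOf_eq_one i
    rw [hi, pow_two] at this
    exact congrArg Subtype.val this
  have hi1 : (i : G) ≠ 1 := by
    intro h1
    have : i = 1 := Subtype.ext h1
    rw [this, orderOf_one] at hi
    omega
  have := h.even i.2 hi1 hi2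
  exact hinf.not_finite this

theorem Frob.ne_two (h : Frob M) (hinf : Infinite G) {p : ℕ} {a : G} (ha : a ∈ M)
    (hpa : orderOf a = p) : p ≠ 2 := by
  rintro rfl
  apply h.not_even hinf
  have h1 : orderOf (⟨a, ha⟩ : M) ∣ Nat.card M := orderOf_dvd_natCard _
  rwa [Subgroup.orderOf_mk, hpa] at h1

theorem Frob.not_three (h : Frob M) (hinf : Infinite G)
    (hc : ∀ x y : G, (orderOf x).Prime → IsConj x y → Finite (closure ({x, y} : Set G))) :
    ¬ 3 ∣ Nat.card M := by
  intro hd
  haveI := h.fin
  obtain ⟨i, hi⟩ := exists_prime_orderOf_dvd_card' (G := M) 3 hd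
  have hi3 : orderOf (i : G) = 3 := by rw [Subgroup.orderOf_coe, hi]
  have := h.three i.2 hi3 (fun x => hc _ _ (by rw [hi3]; exact Nat.prime_three)
    (isConj_iff.2 ⟨x, rfl⟩))
  exact hinf.not_finite this

theorem Frob.not_prime (h : Frob M) (hinf : Infinite G)
    (hc : ∀ x y : G, (orderOf x).Prime → IsConj x y → Finite (closure ({x, y} : Set G))) :
    ¬ (Nat.card M).Prime := by
  intro hp
  haveI := h.fin
  haveI : Fact (Nat.card M).Prime := ⟨hp⟩
  obtain ⟨a, ha⟩ := exists_prime_orderOf_dvd_card' (G := M) (Nat.card M) dvd_rfl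
  have ha' : orderOf (a : G) = Nat.card M := by rw [Subgroup.orderOf_coe, ha]
  have ha1 : (a : G) ≠ 1 := by
    intro h1
    rw [h1, orderOf_one] at ha'
    exact hp.one_lt.ne ha'
  have hfin : ∀ x : G, Finite (closure ({(a : G), x * a * x⁻¹} : Set G)) := fun x =>
    hc _ _ (by rw [ha']; exact hp) (isConj_iff.2 ⟨x, rfl⟩)
  have hgen : M ≤ closure ({(a : G), (a : G)} : Set G) := by
    have h1 : zpowers a = ⊤ := by
      apply Subgroup.eq_top_of_card_eq
      rw [Nat.card_zpowers, ha]
    intro m hm
    have h2 : (⟨m, hm⟩ : M) ∈ zpowers a := by rw [h1]; exact mem_top _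
    obtain ⟨k, hk⟩ := mem_zpowers_iff.1 h2
    have h3 : (a : G) ^ k = m := congrArg Subtype.val hk
    rw [← h3]
    exact zpow_mem (subset_closure (by simp)) k
  have := h.two_gen hp (h.ne_two hinf a.2 ha') a.2 ha' a.2 ha1 hfin hfin hgen
  exact hinf.not_finite this

theorem Frob.cyclic (h : Frob M) (hinf : Infinite G)
    (hc : ∀ x y : G, (orderOf x).Prime → (orderOf y).Prime →
      Finite (closure ({x, y} : Set G))) : IsCyclic M := by
  haveI := h.fin
  letI : CommGroup M := { (inferInstance : Group M) with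
    mul_comm := fun x y => Subtype.ext (h.comm _ x.2 _ y.2) }
  apply cyc_of_prime
  intro p hp a b hpa hpb
  by_contra hab
  have hpa' : orderOf (a : G) = p := by rw [Subgroup.orderOf_coe, hpa]
  have hpb' : orderOf (b : G) = p := by rw [Subgroup.orderOf_coe, hpb]
  have hconj : ∀ (c : G) (x : G), orderOf (x * c * x⁻¹) = orderOf c := by
    intro c x
    have : x * c * x⁻¹ = MulAut.conj x c := by simp
    rw [this, MulEquiv.orderOf_eq]
  apply h.rank_two hp (h.ne_two hinf a.2 hpa') a.2 hpa' b.2 hpb'
  · intro hz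
    apply hab
    obtain ⟨k, hk⟩ := mem_zpowers_iff.1 hz
    exact mem_zpowers_iff.2 ⟨k, Subtype.ext hk⟩
  · intro x
    exact hc _ _ (by rw [hpa']; exact hp) (by rw [hconj, hpa']; exact hp)
  · intro x
    exact hc _ _ (by rw [hpa']; exact hp) (by rw [hconj, hpb']; exact hp)

theorem Frob.not_two_primes (h : Frob M) (hinf : Infinite G)
    (hc : ∀ x y : G, (orderOf x).Prime → (orderOf y).Prime →
      Finite (closure ({x, y} : Set G))) (p q : ℕ) (hp : p.Prime) (hq : q.Prime) (hpq : p ≠ q) :
    Nat.card M ≠ p * q := by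
  intro hcard
  haveI := h.fin
  haveI : Fact p.Prime := ⟨hp⟩
  haveI : Fact q.Prime := ⟨hq⟩
  obtain ⟨a, hpa⟩ := exists_prime_orderOf_dvd_card' (G := M) p ⟨q, hcard⟩
  obtain ⟨b, hqb⟩ := exists_prime_orderOf_dvd_card' (G := M) q ⟨p, by rw [hcard, mul_comm]⟩
  have hpa' : orderOf (a : G) = p := by rw [Subgroup.orderOf_coe, hpa]
  have hqb' : orderOf (b : G) = q := by rw [Subgroup.orderOf_coe, hqb]
  have hb1 : (b : G) ≠ 1 := by
    intro h1
    rw [h1, orderOf_one] at hqb'
    exact hq.one_lt.ne hqb'
  have hconj : ∀ (c : G) (x : G), orderOf (x * c * x⁻¹) = orderOf c := by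
    intro c x
    have : x * c * x⁻¹ = MulAut.conj x c := by simp
    rw [this, MulEquiv.orderOf_eq]
  have hgen : M ≤ closure ({(a : G), (b : G)} : Set G) := by
    have h1 : closure ({a, b} : Set M) = ⊤ := by
      apply Subgroup.eq_top_of_le_card
      rw [hcard]
      have hpd : p ∣ Nat.card (closure ({a, b} : Set M)) := by
        have := Subgroup.orderOf_dvd_natCard (closure ({a, b} : Set M)) (x := a)
          (subset_closure (by simp))
        rwa [hpa] at this
      have hqd : q ∣ Nat.card (closure ({a, b} : Set M)) := by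
        have := Subgroup.orderOf_dvd_natCard (closure ({a, b} : Set M)) (x := b)
          (subset_closure (by simp))
        rwa [hqb] at this
      exact Nat.le_of_dvd Nat.card_pos
        (Nat.Coprime.mul_dvd_of_dvd_of_dvd ((Nat.coprime_primes hp hq).2 hpq) hpd hqd)
    intro m hm
    have h2 : (⟨m, hm⟩ : M) ∈ closure ({a, b} : Set M) := by rw [h1]; exact mem_top _
    have h3 := mem_map_of_mem M.subtype h2
    rw [MonoidHom.map_closure, Set.image_pair] at h3
    exact h3
  have := h.two_gen hp (h.ne_two hinf a.2 hpa') a.2 hpa' b.2 hb1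
    (fun x => hc _ _ (by rw [hpa']; exact hp) (by rw [hconj, hpa']; exact hp))
    (fun x => hc _ _ (by rw [hpa']; exact hp) (by rw [hconj, hqb']; exact hq)) hgen
  exact hinf.not_finite this

end CoreFree

section Quotient

variable {G : Type*} [Group G] (M : Subgroup G)

/-- The map to the normaliser quotient. -/
theorem exists_theta (N : Subgroup G) [hN : N.Normal] :
    ∃ (θ : G ⧸ N →* (normalizer (N : Set G)) ⧸ N.subgroupOf (normalizer (N : Set G)))
      (η : (normalizer (N : Set G)) ⧸ N.subgroupOf (normalizer (N : Set G)) →* G ⧸ N),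
      ∀ x, η (θ x) = x := by
  have htop : normalizer (N : Set G) = ⊤ := normalizer_eq_top_iff.2 hN
  let ι : G →* normalizer (N : Set G) :=
    { toFun := fun g => ⟨g, by rw [htop]; exact mem_top g⟩
      map_one' := rfl
      map_mul' := fun _ _ => rfl }
  let θ : G ⧸ N →* (normalizer (N : Set G)) ⧸ N.subgroupOf (normalizer (N : Set G)) :=
    QuotientGroup.map N _ ι (by
      intro n hn
      rw [mem_comap, mem_subgroupOf]
      exact hn)
  let η : (normalizer (N : Set G)) ⧸ N.subgroupOf (normalizer (N : Set G)) →* G ⧸ N :=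
    QuotientGroup.map _ N (normalizer (N : Set G)).subtype (by
      intro n hn
      rw [mem_comap]
      exact mem_subgroupOf.1 hn)
  refine ⟨θ, η, ?_⟩
  intro x
  obtain ⟨g, rfl⟩ := QuotientGroup.mk_surjective x
  rfl

theorem finite_closure_of (N : Subgroup G) [hN : N.Normal] (x y : G ⧸ N)
    (h : ∀ θ : G ⧸ N →* (normalizer (N : Set G)) ⧸ N.subgroupOf (normalizer (N : Set G)),
      Function.Injective θ → Finite (Subgroup.closure {θ x, θ y})) :
    Finite (closure ({x, y} : Set (G ⧸ N))) := by
  obtain ⟨θ, η, hθη⟩ := exists_theta N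
  have hinj : Function.Injective θ := Function.LeftInverse.injective hθη
  haveI := h θ hinj
  have h1 : closure ({x, y} : Set (G ⧸ N)) = (Subgroup.closure {θ x, θ y}).map η := by
    rw [MonoidHom.map_closure, Set.image_pair, hθη, hθη]
  rw [h1]
  exact (Set.Finite.image _ (Set.toFinite
    (((Subgroup.closure {θ x, θ y} :
      Subgroup (normalizer (N : Set G) ⧸ N.subgroupOf (normalizer (N : Set G))))) :
      Set (normalizer (N : Set G) ⧸ N.subgroupOf (normalizer (N : Set G)))))).to_subtype

theorem frob_quotient (ht : IsMulTorsion G) (hmax : IsCoatom M) (hfin : Finite M)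
    (hcomm : ∀ x y : M ⧸ M.normalCore.subgroupOf M, x * y = y * x) :
    Frob (M.map (QuotientGroup.mk' M.normalCore)) := by
  set N := M.normalCore with hN
  have hle : N ≤ M := normalCore_le M
  have hker : (QuotientGroup.mk' N).ker = N := QuotientGroup.ker_mk' N
  have hsurj := QuotientGroup.mk'_surjective N
  have hcm : (M.map (QuotientGroup.mk' N)).comap (QuotientGroup.mk' N) = M := by
    rw [comap_map_eq, hker, sup_eq_left]
    exact hle
  refine ⟨ht.of_surjective hsurj, ?_, ⟨?_, ?_⟩, ?_, ?_⟩
  · exact (Set.Finite.image _ (Set.toFinite (M : Set G))).to_subtype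
  · intro h1
    apply hmax.1
    rw [← hcm, h1, comap_top]
  · intro L hL
    have h1 := (comap_lt_comap_of_surjective hsurj).2 hL
    rw [hcm] at h1
    have h2 := hmax.2 _ h1
    rw [← map_comap_eq_self_of_surjective hsurj L, h2, map_top_of_surjective _ hsurj]
  · rintro _ ⟨a, ha, rfl⟩ _ ⟨b, hb, rfl⟩
    have h1 := hcomm (QuotientGroup.mk ⟨a, ha⟩) (QuotientGroup.mk ⟨b, hb⟩)
    rw [← QuotientGroup.mk_mul, ← QuotientGroup.mk_mul, QuotientGroup.eq, mem_subgroupOf] at h1
    rw [← map_mul, ← map_mul]
    change (QuotientGroup.mk (a * b) : G ⧸ N) = QuotientGroup.mk (b * a)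
    rw [QuotientGroup.eq]
    simpa using h1
  · rw [eq_bot_iff]
    intro q hq
    have h1 : ((M.map (QuotientGroup.mk' N)).normalCore).comap (QuotientGroup.mk' N) ≤ M := by
      conv_rhs => rw [← hcm]
      exact comap_mono (normalCore_le _)
    haveI : (((M.map (QuotientGroup.mk' N)).normalCore).comap (QuotientGroup.mk' N)).Normal :=
      inferInstance
    have h2 : ((M.map (QuotientGroup.mk' N)).normalCore).comap (QuotientGroup.mk' N) ≤ N :=
      normal_le_normalCore.2 h1
    obtain ⟨g, rfl⟩ := hsurj q
    have h3 : g ∈ N := h2 hq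
    rw [mem_bot]
    change (QuotientGroup.mk g : G ⧸ N) = 1
    rw [QuotientGroup.eq_one_iff]
    exact h3

/-- The quotient `M/M_G` is the image of `M` in `G/M_G`. -/
theorem exists_equiv : Nonempty ((M ⧸ M.normalCore.subgroupOf M) ≃*
    (M.map (QuotientGroup.mk' M.normalCore) : Subgroup (G ⧸ M.normalCore))) := by
  set N := M.normalCore with hN
  let f : M →* G ⧸ N := (QuotientGroup.mk' N).comp M.subtype
  have hker : f.ker = N.subgroupOf M := by
    ext m
    rw [MonoidHom.mem_ker, mem_subgroupOf]
    change (QuotientGroup.mk (m : G) : G ⧸ N) = 1 ↔ _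
    rw [QuotientGroup.eq_one_iff]
  have hrange : f.range = M.map (QuotientGroup.mk' N) := by
    rw [MonoidHom.range_eq_map, ← map_map, ← MonoidHom.range_eq_map, range_subtype]
  exact ⟨((QuotientGroup.quotientMulEquivOfEq hker.symm).trans
    (QuotientGroup.quotientKerEquivRange f)).trans (MulEquiv.subgroupCongr hrange)⟩

end Quotient

/-- Main theorem. -/
theorem main (G : Type*) [Group G] (ht : IsMulTorsion G) (hinf : Infinite G) (M : Subgroup G)
    (hmax : IsCoatom M) (hfin : Finite M)
    (hcomm : ∀ x y : M ⧸ M.normalCore.subgroupOf M, x * y = y * x) :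
    Odd (Nat.card (M ⧸ M.normalCore.subgroupOf M)) ∧
    (ConjugacyBiprimitivelyFinite G →
      ¬ 3 ∣ Nat.card (M ⧸ M.normalCore.subgroupOf M) ∧
      ¬ (Nat.card (M ⧸ M.normalCore.subgroupOf M)).Prime) ∧
    (BiprimitivelyFinite G →
      ¬ 3 ∣ Nat.card (M ⧸ M.normalCore.subgroupOf M) ∧
      ¬ (Nat.card (M ⧸ M.normalCore.subgroupOf M)).Prime ∧
      IsCyclic (M ⧸ M.normalCore.subgroupOf M) ∧
      ∀ p q : ℕ, p.Prime → q.Prime → p ≠ q →
        Nat.card (M ⧸ M.normalCore.subgroupOf M) ≠ p * q) := by
  have hF := frob_quotient M ht hmax hfin hcomm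
  obtain ⟨e⟩ := exists_equiv M
  have hcard : Nat.card (M ⧸ M.normalCore.subgroupOf M) =
      Nat.card (M.map (QuotientGroup.mk' M.normalCore) : Subgroup (G ⧸ M.normalCore)) :=
    Nat.card_congr e.toEquiv
  haveI hcf : Finite M.normalCore := Finite.of_injective (inclusion (normalCore_le M))
    (inclusion_injective _)
  have hQinf : Infinite (G ⧸ M.normalCore) := by
    by_contra hQ
    rw [not_infinite_iff_finite] at hQ
    haveI : M.normalCore.FiniteIndex := finiteIndex_of_finite_quotient
    exact hinf.not_finite (finite_of_finite_finiteIndex M.normalCore)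
  refine ⟨?_, ?_, ?_⟩
  · rw [hcard, ← Nat.not_even_iff_odd, even_iff_two_dvd]
    exact hF.not_even hQinf
  · intro hbf
    have hc : ∀ x y : G ⧸ M.normalCore, (orderOf x).Prime → IsConj x y →
        Finite (closure ({x, y} : Set (G ⧸ M.normalCore))) := by
      intro x y hx hxy
      apply finite_closure_of M.normalCore x y
      intro θ hθ
      apply hbf M.normalCore hcf
      · rw [orderOf_injective θ hθ]; exact hx
      · exact θ.map_isConj hxy
    rw [hcard]
    exact ⟨hF.not_three hQinf hc, hF.not_prime hQinf hc⟩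
  · intro hbf
    have hc : ∀ x y : G ⧸ M.normalCore, (orderOf x).Prime → (orderOf y).Prime →
        Finite (closure ({x, y} : Set (G ⧸ M.normalCore))) := by
      intro x y hx hy
      apply finite_closure_of M.normalCore x y
      intro θ hθ
      apply hbf M.normalCore hcf
      · rw [orderOf_injective θ hθ]; exact hx
      · rw [orderOf_injective θ hθ]; exact hy
    have hc0 := hc
    have hc' : ∀ x y : G ⧸ M.normalCore, (orderOf x).Prime → IsConj x y →
        Finite (closure ({x, y} : Set (G ⧸ M.normalCore))) := by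
      intro x y hx hxy
      obtain ⟨c, hcy⟩ := isConj_iff.1 hxy
      apply hc0 x y hx
      have : y = MulAut.conj c x := by rw [← hcy]; simp
      rw [this, MulEquiv.orderOf_eq]
      exact hx
    rw [hcard]
    refine ⟨hF.not_three hQinf hc', hF.not_prime hQinf hc', ?_,
      fun p q hp hq hpq => hF.not_two_primes hQinf hc p q hp hq hpq⟩
    haveI := hF.cyclic hQinf hc
    exact isCyclic_of_surjective e.symm e.symm.surjective

end Pool.Agent.Helper21.BP
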