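import Pool.Agent.Helper21.BP.Basic

/-!
A short proof of the splitting theorem: the normal complement of a finite abelian core free
maximal subgroup containing an element `a` of odd prime order such that `a` and each conjugate
generate a finite subgroup.
-/

namespace Pool.Agent.Helper21.BP

open Subgroup

variable {G : Type*} [Group G] {M : Subgroup G}

/-- All powers of `a` give the same set of quotients `x a x⁻¹ a⁻¹`. -/
theorem Frob.powers (h : Frob M) {p : ℕ} (hp : p.Prime) {a : G} (ha : a ∈ M)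
    (hpa : orderOf a = p) (hfin : ∀ x : G, Finite (closure ({a, x * a * x⁻¹} : Set G)))
    (j : ℕ) (hj : a ^ j ≠ 1) (g : G) :
    (∃ x, g = x * a * x⁻¹ * a⁻¹) ↔ ∃ y, g = y * a ^ j * y⁻¹ * (a ^ j)⁻¹ := by
  have ha1 : a ≠ 1 := by
    intro h
    rw [h, orderOf_one] at hpa
    exact hp.one_lt.ne hpa
  constructor
  · rintro ⟨x, rfl⟩
    obtain ⟨N, hNf, hNa, hNb, hNx, hNM⟩ := h.kernel hp ha hpa x (hfin x)
    have hNj : ∀ i : ℕ, ∀ n ∈ N, a ^ i * n * (a ^ i)⁻¹ ∈ N := by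
      intro i
      induction i with
      | zero => intro n hn; simpa using hn
      | succ i ih =>
        intro n hn
        have := hNa _ (ih n hn)
        have h2 : a ^ (i + 1) * n * (a ^ (i + 1))⁻¹ = a * (a ^ i * n * (a ^ i)⁻¹) * a⁻¹ := by
          rw [pow_succ']; group
        rw [h2]
        exact this
    obtain ⟨m, hm, hmx⟩ := h.conj_surj (M.pow_mem ha j) hj N hNf (hNj j) hNM _ hNx
    exact ⟨m⁻¹, by rw [← hmx, inv_inv]⟩
  · rintro ⟨y, rfl⟩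
    obtain ⟨N, hNf, hNa, hNb, hNx, hNM⟩ := h.kernel hp ha hpa y (hfin y)
    have hpow : ∀ i : ℕ, (y * a * y⁻¹) ^ i * (a ^ i)⁻¹ ∈ N := by
      intro i
      induction i with
      | zero => simp
      | succ i ih =>
        have h1 := hNb _ ih
        have h2 := N.mul_mem h1 hNx
        have h3 : (y * a * y⁻¹) ^ (i + 1) * (a ^ (i + 1))⁻¹ =
            y * a * y⁻¹ * ((y * a * y⁻¹) ^ i * (a ^ i)⁻¹) * (y * a * y⁻¹)⁻¹ *
              (y * a * y⁻¹ * a⁻¹) := by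
          rw [pow_succ', pow_succ]
          group
        rw [h3]
        exact h2
    have h4 : y * a ^ j * y⁻¹ * (a ^ j)⁻¹ ∈ N := by
      have := hpow j
      rwa [conj_pow] at this
    obtain ⟨m, hm, hmx⟩ := h.conj_surj ha ha1 N hNf hNa hNM _ h4
    exact ⟨m⁻¹, by rw [← hmx, inv_inv]⟩

theorem Frob.mul_closed (h : Frob M) {p : ℕ} (hp : p.Prime) (hp2 : p ≠ 2) {a : G} (ha : a ∈ M)
    (hpa : orderOf a = p) (hfin : ∀ x : G, Finite (closure ({a, x * a * x⁻¹} : Set G)))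
    {f g : G} (hf : ∃ x, f = x * a * x⁻¹ * a⁻¹) (hg : ∃ x, g = x * a * x⁻¹ * a⁻¹) :
    ∃ x, f * g = x * a * x⁻¹ * a⁻¹ := by
  have h2 : a ^ 2 ≠ 1 := by
    intro h1
    have := orderOf_dvd_of_pow_eq_one h1
    rw [hpa] at this
    exact hp2 ((Nat.prime_dvd_prime_iff_eq hp Nat.prime_two).1 this)
  obtain ⟨y, rfl⟩ := hf
  obtain ⟨x, rfl⟩ := hg
  -- `x' = a⁻¹ x`
  obtain ⟨z, hz⟩ := (h.powers hp ha hpa hfin 2 h2 ((a⁻¹ * x)⁻¹ * y * a * ((a⁻¹ * x)⁻¹ * y)⁻¹ *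
    a⁻¹)).1 ⟨_, rfl⟩
  rw [h.powers hp ha hpa hfin 2 h2]
  refine ⟨a⁻¹ * x * z, ?_⟩
  have h3 : y * a * y⁻¹ * a⁻¹ * (x * a * x⁻¹ * a⁻¹) =
      (a⁻¹ * x) * ((a⁻¹ * x)⁻¹ * y * a * ((a⁻¹ * x)⁻¹ * y)⁻¹ * a⁻¹) * a ^ 2 *
        (a⁻¹ * x)⁻¹ * (a ^ 2)⁻¹ := by
    rw [pow_two]
    group
  rw [h3, hz]
  group

/-- The normal complement. -/
theorem Frob.split (h : Frob M) {p : ℕ} (hp : p.Prime) (hp2 : p ≠ 2) {a : G} (ha : a ∈ M)
    (hpa : orderOf a = p) (hfin : ∀ x : G, Finite (closure ({a, x * a * x⁻¹} : Set G))) :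
    ∃ F : Subgroup G, F.Normal ∧ (∀ f, f ∈ F ↔ ∃ x, f = x * a * x⁻¹ * a⁻¹) ∧
      (∀ f ∈ F, f ∈ M → f = 1) := by
  have hmul := fun {f g : G} => h.mul_closed hp hp2 ha hpa hfin (f := f) (g := g)
  have hone : ∃ x, (1 : G) = x * a * x⁻¹ * a⁻¹ := ⟨1, by group⟩
  have hpow : ∀ (f : G), (∃ x, f = x * a * x⁻¹ * a⁻¹) → ∀ n : ℕ,
      ∃ x, f ^ n = x * a * x⁻¹ * a⁻¹ := by
    intro f hf n
    induction n with
    | zero => simpa using hone
    | succ n ih =>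
      rw [pow_succ]
      exact hmul ih hf
  have hinv : ∀ (f : G), (∃ x, f = x * a * x⁻¹ * a⁻¹) → ∃ x, f⁻¹ = x * a * x⁻¹ * a⁻¹ := by
    intro f hf
    have hfo : IsOfFinOrder f := h.tors f
    have hpos := hfo.orderOf_pos
    have h1 : f⁻¹ = f ^ (orderOf f - 1) := by
      rw [inv_eq_iff_mul_eq_one, ← pow_succ', Nat.sub_add_cancel hpos, pow_orderOf_eq_one]
    rw [h1]
    exact hpow f hf _
  let F : Subgroup G :=
    { carrier := {f | ∃ x, f = x * a * x⁻¹ * a⁻¹}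
      mul_mem' := fun hf hg => hmul hf hg
      one_mem' := hone
      inv_mem' := fun hf => hinv _ hf }
  have hmem : ∀ f, f ∈ F ↔ ∃ x, f = x * a * x⁻¹ * a⁻¹ := fun f => Iff.rfl
  refine ⟨F, ?_, hmem, ?_⟩
  · constructor
    rintro f ⟨x, rfl⟩ g
    have h1 : (g * x) * a * (g * x)⁻¹ * a⁻¹ ∈ F := ⟨_, rfl⟩
    have h2 : g * a * g⁻¹ * a⁻¹ ∈ F := ⟨_, rfl⟩
    have h3 := F.mul_mem h1 (F.inv_mem h2)
    have h4 : (g * x) * a * (g * x)⁻¹ * a⁻¹ * (g * a * g⁻¹ * a⁻¹)⁻¹ =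
        g * (x * a * x⁻¹ * a⁻¹) * g⁻¹ := by group
    rwa [h4] at h3
  · rintro f ⟨x, rfl⟩ hf
    have ha1 : a ≠ 1 := by
      intro h
      rw [h, orderOf_one] at hpa
      exact hp.one_lt.ne hpa
    have h1 : x * a * x⁻¹ ∈ M := by
      have := M.mul_mem hf ha
      simpa using this
    have h2 := h.ti ha ha1 h1
    have h3 := h.comm x h2 a ha
    rw [h3]
    group

end Pool.Agent.Helper21.BP
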