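import Pool.Agent.Helper21.BP.Split
import Pool.Agent.Helper21.BP.Fin

/-!
The case of an element of order three.
-/

set_option linter.style.haveILetI false

namespace Pool.Agent.Helper21.BP

open Subgroup

variable {G : Type*} [Group G] {M : Subgroup G}

theorem Frob.fg (h : Frob M) : Group.FG G := by
  haveI := h.fin
  have hne : ∃ x, x ∉ M := by
    by_contra hall
    push Not at hall
    apply h.max.1
    rw [eq_top_iff]
    intro g _
    exact hall g
  obtain ⟨x, hx⟩ := hne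
  have htop : closure ((M : Set G) ∪ {x}) = ⊤ := by
    have hle : M ≤ closure ((M : Set G) ∪ {x}) := fun m hm => subset_closure (Or.inl hm)
    rcases (h.max.le_iff).1 hle with h1 | h1
    · exact h1
    · exfalso
      apply hx
      rw [← h1]
      exact subset_closure (Or.inr rfl)
  have hf : ((M : Set G) ∪ {x}).Finite := (Set.toFinite _).union (Set.finite_singleton x)
  exact ⟨⟨hf.toFinset, by rw [Set.Finite.coe_toFinset]; exact htop⟩⟩

/-- A complement of the maximal subgroup. -/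
theorem Frob.compl (h : Frob M) {a : G} (ha : a ∈ M) (ha1 : a ≠ 1) (F : Subgroup G)
    [hn : F.Normal] (hF : ∀ f, f ∈ F ↔ ∃ x, f = x * a * x⁻¹ * a⁻¹)
    (hFM : ∀ f ∈ F, f ∈ M → f = 1) : F ⊔ M = ⊤ ∧ F.FiniteIndex := by
  have htop : F ⊔ M = ⊤ := by
    rcases (h.max.le_iff).1 (le_sup_right : M ≤ F ⊔ M) with h1 | h1
    · exact h1
    · exfalso
      have hle : F ≤ M := by
        rw [← h1]
        exact le_sup_left
      apply h.max.1
      rw [eq_top_iff]
      intro x _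
      apply h.cen ha ha1
      have hf : x * a * x⁻¹ * a⁻¹ ∈ F := (hF _).2 ⟨x, rfl⟩
      have h2 := hFM _ hf (hle hf)
      have h3 : x * a * x⁻¹ = a := mul_inv_eq_one.1 h2
      exact mul_inv_eq_iff_eq_mul.1 h3
  refine ⟨htop, ?_⟩
  haveI := h.fin
  have hsurj : Function.Surjective (fun m : M => ((m : G) : G ⧸ F)) := by
    intro q
    obtain ⟨g, rfl⟩ := QuotientGroup.mk_surjective q
    have hg : g ∈ F ⊔ M := by rw [htop]; exact mem_top g
    rw [sup_comm, ← SetLike.mem_coe, Subgroup.mul_normal, Set.mem_mul] at hg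
    obtain ⟨m, hm, f, hf, rfl⟩ := hg
    refine ⟨⟨m, hm⟩, ?_⟩
    simp only
    rw [QuotientGroup.eq]
    have : m⁻¹ * (m * f) = f := by group
    rw [this]
    exact hf
  haveI : Finite (G ⧸ F) := Finite.of_surjective _ hsurj
  exact finiteIndex_of_finite_quotient

theorem comm_of_cubes {f c : G} (hc : c * c * c = 1) (h1 : f * c * (f * c) * (f * c) = 1)
    (h2 : f⁻¹ * c * (f⁻¹ * c) * (f⁻¹ * c) = 1) :
    f * (c * f * c⁻¹) = c * f * c⁻¹ * f := by
  have hci : c⁻¹ = c * c := (eq_inv_of_mul_eq_one_left hc).symm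
  have e1 : c * f * c = f⁻¹ * c⁻¹ * f⁻¹ := by
    have : f * (c * f * c) * (f * c) = 1 := by
      rw [← h1]; group
    have h3 : c * f * c = f⁻¹ * (f * c)⁻¹ := by
      rw [eq_inv_mul_iff_mul_eq, eq_inv_iff_mul_eq_one]
      exact this
    rw [h3]; group
  have e2 : c * f⁻¹ * c = f * c⁻¹ * f := by
    have : f⁻¹ * (c * f⁻¹ * c) * (f⁻¹ * c) = 1 := by
      rw [← h2]; group
    have h3 : c * f⁻¹ * c = f * (f⁻¹ * c)⁻¹ := by
      have h4 : f⁻¹ * (c * f⁻¹ * c) = (f⁻¹ * c)⁻¹ := by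
        rw [eq_inv_iff_mul_eq_one]
        exact this
      rw [← h4]; group
    rw [h3]; group
  have l1 : f * (c * f * c⁻¹) = c⁻¹ * f⁻¹ * c := by
    calc f * (c * f * c⁻¹) = f * (c * f * (c * c)) := by rw [← hci]
      _ = f * (c * f * c) * c := by group
      _ = f * (f⁻¹ * c⁻¹ * f⁻¹) * c := by rw [e1]
      _ = c⁻¹ * f⁻¹ * c := by group
  have l2 : c * f * c⁻¹ * f = c⁻¹ * f⁻¹ * c := by
    calc c * f * c⁻¹ * f = c * (f * c⁻¹ * f) := by group
      _ = c * (c * f⁻¹ * c) := by rw [e2]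
      _ = (c * c) * f⁻¹ * c := by group
      _ = c⁻¹ * f⁻¹ * c := by rw [← hci]
  rw [l1, l2]

theorem Frob.three (h : Frob M) {a : G} (ha : a ∈ M) (hpa : orderOf a = 3)
    (hfin : ∀ x : G, Finite (closure ({a, x * a * x⁻¹} : Set G))) : Finite G := by
  have ha1 : a ≠ 1 := by
    intro h
    rw [h, orderOf_one] at hpa
    omega
  obtain ⟨F, hFn, hF, hFM⟩ := h.split Nat.prime_three (by norm_num) ha hpa hfin
  haveI := hFn
  obtain ⟨htop, hfi⟩ := h.compl ha ha1 F hF hFM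
  have ha3 : a * a * a = 1 := by
    have := pow_orderOf_eq_one a
    rw [hpa] at this
    rw [pow_succ, pow_two] at this
    exact this
  have hai : a⁻¹ = a * a := (eq_inv_of_mul_eq_one_left ha3).symm
  have hcube : ∀ f ∈ F, f * a * (f * a) * (f * a) = 1 := by
    intro f hf
    obtain ⟨x, rfl⟩ := (hF f).1 hf
    calc x * a * x⁻¹ * a⁻¹ * a * (x * a * x⁻¹ * a⁻¹ * a) * (x * a * x⁻¹ * a⁻¹ * a) =
        x * (a * a * a) * x⁻¹ := by group
      _ = 1 := by rw [ha3]; group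
  have hcube' : ∀ f ∈ F, ∀ g ∈ F, f * (g * a) * (f * (g * a)) * (f * (g * a)) = 1 := by
    intro f hf g hg
    have := hcube (f * g) (F.mul_mem hf hg)
    rw [← this]; group
  have hcomm1 : ∀ f ∈ F, ∀ g ∈ F,
      f * ((g * a) * f * (g * a)⁻¹) = (g * a) * f * (g * a)⁻¹ * f := by
    intro f hf g hg
    apply comm_of_cubes
    · have := hcube g hg
      rw [← this]
    · exact hcube' f hf g hg
    · exact hcube' f⁻¹ (F.inv_mem hf) g hg
  have hcomm2 : ∀ f ∈ F, ∀ g ∈ F,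
      f * ((g * a)⁻¹ * f * (g * a)) = (g * a)⁻¹ * f * (g * a) * f := by
    intro f hf g hg
    have := hcomm1 f hf g hg
    have h1 : (g * a)⁻¹ * (f * ((g * a) * f * (g * a)⁻¹)) * (g * a) =
      (g * a)⁻¹ * ((g * a) * f * (g * a)⁻¹ * f) * (g * a) := by rw [this]
    have h2 : (g * a)⁻¹ * (f * ((g * a) * f * (g * a)⁻¹)) * (g * a) =
      (g * a)⁻¹ * f * (g * a) * f := by group
    have h3 : (g * a)⁻¹ * ((g * a) * f * (g * a)⁻¹ * f) * (g * a) =
      f * ((g * a)⁻¹ * f * (g * a)) := by group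
    rw [← h2, ← h3, h1]
  have hprod : ∀ f ∈ F, a * f * a⁻¹ * (a⁻¹ * f * a) = f⁻¹ := by
    intro f hf
    have h1 := hcube f hf
    have h2 : f * (a * f * a⁻¹ * (a⁻¹ * f * a)) = 1 := by
      calc f * (a * f * a⁻¹ * (a⁻¹ * f * a)) = f * a * f * (a⁻¹ * a⁻¹) * f * a := by group
        _ = f * a * f * (a * (a * a * a)) * f * a := by rw [hai]; group
        _ = f * a * (f * a) * (f * a) := by rw [ha3]; group
        _ = 1 := h1
    exact (inv_eq_of_mul_eq_one_right h2).symm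
  have hengel : ∀ f ∈ F, ∀ k ∈ F, f * (k * f * k⁻¹) = k * f * k⁻¹ * f := by
    intro f hf k hk
    have c1 := hcomm1 f hf k hk
    have hk2 : a * k⁻¹ * a⁻¹ ∈ F := hFn.conj_mem _ (F.inv_mem hk) a
    have c2 := hcomm2 f hf _ hk2
    have e1 : (a * k⁻¹ * a⁻¹ * a)⁻¹ * f * (a * k⁻¹ * a⁻¹ * a) = k * (a⁻¹ * f * a) * k⁻¹ := by
      group
    rw [e1] at c2
    have e2 : (k * a) * f * (k * a)⁻¹ = k * (a * f * a⁻¹) * k⁻¹ := by group
    rw [e2] at c1
    have c3 : f * (k * f⁻¹ * k⁻¹) = k * f⁻¹ * k⁻¹ * f := by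
      rw [← hprod f hf]
      calc f * (k * (a * f * a⁻¹ * (a⁻¹ * f * a)) * k⁻¹) =
          (f * (k * (a * f * a⁻¹) * k⁻¹)) * (k * (a⁻¹ * f * a) * k⁻¹) := by group
        _ = (k * (a * f * a⁻¹) * k⁻¹ * f) * (k * (a⁻¹ * f * a) * k⁻¹) := by rw [c1]
        _ = k * (a * f * a⁻¹) * k⁻¹ * (f * (k * (a⁻¹ * f * a) * k⁻¹)) := by group
        _ = k * (a * f * a⁻¹) * k⁻¹ * (k * (a⁻¹ * f * a) * k⁻¹ * f) := by rw [c2]
        _ = k * (a * f * a⁻¹ * (a⁻¹ * f * a)) * k⁻¹ * f := by group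
    have c4 : (k * f * k⁻¹) * (f * (k * f⁻¹ * k⁻¹)) * (k * f * k⁻¹) =
        (k * f * k⁻¹) * (k * f⁻¹ * k⁻¹ * f) * (k * f * k⁻¹) := by rw [c3]
    have c5 : (k * f * k⁻¹) * (f * (k * f⁻¹ * k⁻¹)) * (k * f * k⁻¹) = k * f * k⁻¹ * f := by group
    have c6 : (k * f * k⁻¹) * (k * f⁻¹ * k⁻¹ * f) * (k * f * k⁻¹) = f * (k * f * k⁻¹) := by
      group
    rw [← c5, ← c6, c4]
  haveI := h.fg
  haveI : Group.FG F := inferInstance
  obtain ⟨S, hS⟩ := (inferInstance : Group.FG F).1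
  haveI : Finite F := by
    apply finite_of_engel S.card S le_rfl hS (h.tors.subgroup F)
    intro f k
    apply Subtype.ext
    push_cast
    exact hengel _ f.2 _ k.2
  exact finite_of_finite_finiteIndex F

end Pool.Agent.Helper21.BP
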